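import Mathlib

/-! Finite computations on the discrete cube. -/

set_option autoImplicit false

open Finset

namespace Pool.Agent.MP_9152e2_an

noncomputable section

lemma sum_zmod2 (f : ZMod 2 → ℝ) : ∑ a, f a = f 0 + f 1 := Fin.sum_univ_two f

lemma zmod2_cases (a : ZMod 2) : a = 0 ∨ a = 1 := by revert a; decide

lemma zmod2_add_self (a : ZMod 2) : a + a = 0 := by revert a; decide

/-- indicator of a nonzero bit -/
def ind (a : ZMod 2) : ℝ := if a = 0 then 0 else 1

@[simp] lemma ind_zero : ind 0 = 0 := by simp [ind]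
@[simp] lemma ind_one : ind 1 = 1 := by simp [ind]
lemma ind_nonneg (a : ZMod 2) : 0 ≤ ind a := by unfold ind; split_ifs <;> norm_num
lemma ind_le_one (a : ZMod 2) : ind a ≤ 1 := by unfold ind; split_ifs <;> norm_num
lemma one_add_one_zmod2 : (1 : ZMod 2) + 1 = 0 := by decide
lemma ind_add_le (a b : ZMod 2) : ind (a + b) ≤ ind a + ind b := by
  rcases zmod2_cases a with rfl | rfl <;> rcases zmod2_cases b with rfl | rfl <;>
    simp [one_add_one_zmod2]
lemma abs_ind_add_sub (a b : ZMod 2) : |ind (a + b) - ind a| ≤ ind b := by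
  rcases zmod2_cases a with rfl | rfl <;> rcases zmod2_cases b with rfl | rfl <;>
    simp [one_add_one_zmod2]
lemma ind_add_one (a : ZMod 2) : ind (a + 1) = 1 - ind a := by
  rcases zmod2_cases a with rfl | rfl <;> simp [one_add_one_zmod2]
lemma ind_neg (a : ZMod 2) : ind (-a) = ind a := by simp [ind]
lemma ind_eq_zero {a : ZMod 2} (h : ind a = 0) : a = 0 := by
  rcases zmod2_cases a with rfl | rfl
  · rfl
  · simp at h

/-! ### Poincare inequality and concentration -/

lemma poincare_fin (n : ℕ) : ∀ (f : (Fin n → ZMod 2) → ℝ),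
    (∀ x i, |f (x + Pi.single i 1) - f x| ≤ 1) →
    2 ^ n * ∑ x, f x ^ 2 - (∑ x, f x) ^ 2 ≤ n * (2 ^ n) ^ 2 / 4 := by
  induction n with
  | zero => intro f _; simp
  | succ n ih =>
    intro f hf
    have hsum : ∀ F : (Fin (n + 1) → ZMod 2) → ℝ,
        ∑ x, F x = ∑ y : Fin n → ZMod 2, (F (Fin.cons 0 y) + F (Fin.cons 1 y)) := by
      intro F
      rw [← (Fin.consEquiv (fun _ : Fin (n + 1) => ZMod 2)).sum_comp, Fintype.sum_prod_type,
        sum_zmod2, sum_add_distrib]
      rfl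
    set g : (Fin n → ZMod 2) → ℝ := fun y => (f (Fin.cons 0 y) + f (Fin.cons 1 y)) / 2 with hg
    have hc : ∀ (a : ZMod 2) (y : Fin n → ZMod 2) (i : Fin n),
        (Fin.cons a (y + Pi.single i 1) : Fin (n + 1) → ZMod 2) =
          (Fin.cons a y : Fin (n + 1) → ZMod 2) + Pi.single i.succ 1 := by
      intro a y i
      funext j
      refine Fin.cases ?_ (fun j => ?_) j
      · simp [(Fin.succ_ne_zero i).symm]
      · simp [Pi.single_apply]
    have hgl : ∀ y i, |g (y + Pi.single i 1) - g y| ≤ 1 := by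
      intro y i
      have h0 := hf (Fin.cons 0 y) i.succ
      have h1 := hf (Fin.cons 1 y) i.succ
      rw [← hc] at h0 h1
      rw [abs_le] at h0 h1 ⊢
      simp only [hg]
      constructor <;> linarith [h0.1, h0.2, h1.1, h1.2]
    have hd : ∀ y : Fin n → ZMod 2, |f (Fin.cons 1 y) - f (Fin.cons 0 y)| ≤ 1 := by
      intro y
      have := hf (Fin.cons 0 y) 0
      have e : (Fin.cons 0 y : Fin (n + 1) → ZMod 2) + Pi.single 0 1 = Fin.cons 1 y := by
        funext j
        refine Fin.cases ?_ (fun j => ?_) j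
        · simp
        · simp
      rwa [e] at this
    have h1 : ∑ x, f x = 2 * ∑ y, g y := by
      rw [hsum, mul_sum]
      refine sum_congr rfl fun y _ => ?_
      simp only [hg]; ring
    have h2 : ∑ x, f x ^ 2 ≤ 2 * ∑ y, g y ^ 2 + 2 ^ n / 2 := by
      rw [hsum, mul_sum]
      have : (2 : ℝ) ^ n / 2 = ∑ _y : Fin n → ZMod 2, (1 / 2 : ℝ) := by
        simp [ZMod.card]; ring
      rw [this, ← sum_add_distrib]
      refine sum_le_sum fun y _ => ?_
      have := hd y
      have h3 : (f (Fin.cons 1 y) - f (Fin.cons 0 y)) ^ 2 ≤ 1 := by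
        rw [← sq_abs]; nlinarith [abs_nonneg (f (Fin.cons 1 y) - f (Fin.cons 0 y))]
      simp only [hg]; nlinarith
    have h4 := ih g hgl
    have h5 : (0 : ℝ) < 2 ^ n := by positivity
    rw [h1, pow_succ]
    push_cast
    nlinarith

lemma poincare {ι : Type} [Fintype ι] [DecidableEq ι] (f : (ι → ZMod 2) → ℝ)
    (hf : ∀ x i, |f (x + Pi.single i 1) - f x| ≤ 1) :
    2 ^ Fintype.card ι * ∑ x, f x ^ 2 - (∑ x, f x) ^ 2 ≤
      Fintype.card ι * (2 ^ Fintype.card ι) ^ 2 / 4 := by
  let e := Fintype.equivFin ι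
  let E : (Fin (Fintype.card ι) → ZMod 2) ≃ (ι → ZMod 2) := Equiv.arrowCongr e.symm (Equiv.refl _)
  have := poincare_fin (Fintype.card ι) (fun x => f (E x)) (by
    intro x i
    have h := hf (E x) (e.symm i)
    have : E (x + Pi.single i 1) = E x + Pi.single (e.symm i) 1 := by
      funext j
      simp [E, Pi.single_apply, Equiv.eq_symm_apply]
    rwa [this])
  rwa [E.sum_comp (fun x => f x ^ 2), E.sum_comp f] at this

lemma cube_conc {ι : Type} [Fintype ι] [DecidableEq ι] (A B : Finset (ι → ZMod 2)) (r : ℝ)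
    (hr : 0 ≤ r) (h : ∀ a ∈ A, ∀ b ∈ B, r ≤ hammingDist a b) :
    (A.card : ℝ) * B.card * r ^ 2 ≤ Fintype.card ι * (2 ^ Fintype.card ι) ^ 2 / 2 := by
  rcases A.eq_empty_or_nonempty with rfl | hA
  · simp; positivity
  set f : (ι → ZMod 2) → ℝ := fun x => A.inf' hA (fun a => (hammingDist a x : ℝ)) with hf
  have hstep : ∀ x y : ι → ZMod 2, hammingDist x y ≤ 1 → f y ≤ f x + 1 := by
    intro x y hxy
    obtain ⟨a, ha, he⟩ := exists_mem_eq_inf' hA (fun a => (hammingDist a x : ℝ))
    have h1 : f y ≤ hammingDist a y := inf'_le _ ha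
    have h2 : hammingDist a y ≤ hammingDist a x + hammingDist x y := hammingDist_triangle a x y
    have h3 : (hammingDist a y : ℝ) ≤ hammingDist a x + 1 := by
      exact_mod_cast h2.trans (Nat.add_le_add_left hxy _)
    have h4 : f x = hammingDist a x := he
    linarith
  have hham : ∀ (x : ι → ZMod 2) i, hammingDist x (x + Pi.single i 1) ≤ 1 := by
    intro x i
    unfold hammingDist
    refine (card_le_card (t := {i}) ?_).trans (by simp)
    intro j hj
    simp only [mem_filter, mem_univ, true_and, Pi.add_apply] at hj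
    by_contra hji
    simp only [mem_singleton] at hji
    simp [hji] at hj
  have hL : ∀ x i, |f (x + Pi.single i 1) - f x| ≤ 1 := by
    intro x i
    have h1 := hstep x _ (hham x i)
    have h2 := hstep (x + Pi.single i 1) x (by rw [hammingDist_comm]; exact hham x i)
    rw [abs_le]; constructor <;> linarith
  have hP := poincare f hL
  have hA0 : ∀ a ∈ A, f a = 0 := by
    intro a ha
    apply le_antisymm
    · have : f a ≤ hammingDist a a := inf'_le _ ha
      simpa using this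
    · exact le_inf' _ _ fun b _ => Nat.cast_nonneg _
  have hB : ∀ b ∈ B, r ≤ f b := fun b hb => le_inf' _ _ fun a ha => h a ha b hb
  have hdouble : ∑ x, ∑ y, (f x - f y) ^ 2 =
      2 * (2 ^ Fintype.card ι * ∑ x, f x ^ 2 - (∑ x, f x) ^ 2) := by
    have hc : (Fintype.card (ι → ZMod 2) : ℝ) = 2 ^ Fintype.card ι := by
      simp [ZMod.card]
    simp only [sub_sq, sum_add_distrib, sum_sub_distrib, sum_const, card_univ, nsmul_eq_mul,
      ← mul_sum, ← sum_mul, hc]
    ring
  have hlow : (A.card : ℝ) * B.card * r ^ 2 ≤ ∑ x, ∑ y, (f x - f y) ^ 2 := by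
    calc (A.card : ℝ) * B.card * r ^ 2 = ∑ _x ∈ A, ∑ _y ∈ B, r ^ 2 := by
          simp [mul_assoc]
      _ ≤ ∑ x ∈ A, ∑ y ∈ B, (f x - f y) ^ 2 := by
          refine sum_le_sum fun a ha => sum_le_sum fun b hb => ?_
          rw [hA0 a ha, zero_sub, neg_sq]
          exact pow_le_pow_left₀ hr (hB b hb) 2
      _ ≤ ∑ x ∈ A, ∑ y, (f x - f y) ^ 2 :=
          sum_le_sum fun a _ => sum_le_sum_of_subset_of_nonneg (subset_univ _)
            fun _ _ _ => sq_nonneg _
      _ ≤ ∑ x, ∑ y, (f x - f y) ^ 2 :=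
          sum_le_sum_of_subset_of_nonneg (subset_univ _)
            fun _ _ _ => sum_nonneg fun _ _ => sq_nonneg _
  linarith

/-! ### Biased product weights -/

/-- weight of one biased bit -/
def bw (β : ℝ) (a : ZMod 2) : ℝ := if a = 0 then 1 / 2 + β else 1 / 2 - β

@[simp] lemma bw_zero (β : ℝ) : bw β 0 = 1 / 2 + β := by simp [bw]
@[simp] lemma bw_one (β : ℝ) : bw β 1 = 1 / 2 - β := by simp [bw]

lemma bw_pos {β : ℝ} (h0 : 0 ≤ β) (h1 : β ≤ 1 / 3) (a : ZMod 2) : 0 < bw β a := by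
  unfold bw; split_ifs <;> linarith

lemma bw_le_one {β : ℝ} (h0 : 0 ≤ β) (h1 : β ≤ 1 / 3) (a : ZMod 2) : bw β a ≤ 1 := by
  unfold bw; split_ifs <;> linarith

lemma sum_bw (β : ℝ) : ∑ a, bw β a = 1 := by rw [sum_zmod2]; simp; norm_num

variable {ι : Type} [Fintype ι] [DecidableEq ι]

/-- product weight -/
def pw (β : ι → ℝ) (x : ι → ZMod 2) : ℝ := ∏ i, bw (β i) (x i)

lemma sum_prod_cube (g : ι → ZMod 2 → ℝ) :
    ∑ x : ι → ZMod 2, ∏ i, g i (x i) = ∏ i, (g i 0 + g i 1) := by
  have := prod_univ_sum (fun _ : ι => (univ : Finset (ZMod 2))) g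
  rw [Fintype.piFinset_univ] at this
  rw [← this]
  exact prod_congr rfl fun i _ => sum_zmod2 _

lemma sum_pw (β : ι → ℝ) : ∑ x, pw β x = 1 := by
  unfold pw
  rw [sum_prod_cube (fun i a => bw (β i) a)]
  exact prod_eq_one fun i _ => by simp; norm_num

omit [DecidableEq ι] in
lemma pw_pos {β : ι → ℝ} (h0 : ∀ i, 0 ≤ β i) (h1 : ∀ i, β i ≤ 1 / 3) (x : ι → ZMod 2) :
    0 < pw β x := prod_pos fun i _ => bw_pos (h0 i) (h1 i) _

lemma chi_one {β : ℝ} (h0 : 0 ≤ β) (h1 : β ≤ 1 / 3) (c : ZMod 2) :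
    bw β (0 + c) ^ 2 / bw β 0 + bw β (1 + c) ^ 2 / bw β 1 ≤ Real.exp (29 * (β ^ 2 * ind c)) := by
  have hp : 0 < 1 / 2 + β := by linarith
  have hq : 0 < 1 / 2 - β := by linarith
  rcases zmod2_cases c with rfl | rfl
  · simp only [add_zero, bw_zero, bw_one, ind_zero, mul_zero, Real.exp_zero]
    rw [sq, sq, mul_div_assoc, mul_div_assoc, div_self hp.ne', div_self hq.ne']
    linarith
  · simp only [zero_add, one_add_one_zmod2, bw_zero, bw_one, ind_one, mul_one]
    refine le_trans ?_ (Real.add_one_le_exp _)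
    rw [div_add_div _ _ hp.ne' hq.ne', div_le_iff₀ (mul_pos hp hq)]
    have hb : β ^ 2 ≤ 1 / 9 := by nlinarith
    nlinarith [sq_nonneg β, mul_nonneg (sq_nonneg β) (sub_nonneg.2 hb)]

lemma chi_le {β : ι → ℝ} (h0 : ∀ i, 0 ≤ β i) (h1 : ∀ i, β i ≤ 1 / 3) (h : ι → ZMod 2) :
    ∑ x, pw β (x + h) ^ 2 / pw β x ≤ Real.exp (29 * ∑ i, β i ^ 2 * ind (h i)) := by
  have : ∀ x : ι → ZMod 2, pw β (x + h) ^ 2 / pw β x =
      ∏ i, (bw (β i) (x i + h i) ^ 2 / bw (β i) (x i)) := by
    intro x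
    rw [prod_div_distrib, prod_pow]
    rfl
  simp_rw [this]
  rw [sum_prod_cube (fun i a => bw (β i) (a + h i) ^ 2 / bw (β i) a), mul_sum, Real.exp_sum]
  refine prod_le_prod (fun i _ => ?_) fun i _ => chi_one (h0 i) (h1 i) (h i)
  have := bw_pos (h0 i) (h1 i)
  exact add_nonneg (div_nonneg (sq_nonneg _) (this _).le) (div_nonneg (sq_nonneg _) (this _).le)

lemma var_le {β : ι → ℝ} (a : ι → ℝ) :
    ∑ x, pw β x * (∑ i, a i * (ind (x i) - (1 / 2 - β i))) ^ 2 ≤ ∑ i, a i ^ 2 / 4 := by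
  have key : ∀ i j, ∑ x, pw β x * ((ind (x i) - (1 / 2 - β i)) * (ind (x j) - (1 / 2 - β j))) =
      if i = j then 1 / 4 - β i ^ 2 else 0 := by
    intro i j
    have e : ∀ x : ι → ZMod 2,
        pw β x * ((ind (x i) - (1 / 2 - β i)) * (ind (x j) - (1 / 2 - β j))) =
        ∏ k, (bw (β k) (x k) * ((if k = i then ind (x k) - (1 / 2 - β k) else 1) *
          (if k = j then ind (x k) - (1 / 2 - β k) else 1))) := by
      intro x
      rw [prod_mul_distrib, prod_mul_distrib, prod_ite_eq' univ i, prod_ite_eq' univ j]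
      simp [pw]
    simp_rw [e]
    rw [sum_prod_cube (fun k c => bw (β k) c * ((if k = i then ind c - (1 / 2 - β k) else 1) *
          (if k = j then ind c - (1 / 2 - β k) else 1)))]
    split_ifs with hij
    · subst hij
      rw [prod_eq_single i]
      · simp; ring
      · intro k _ hk
        simp [hk]; norm_num
      · simp
    · refine prod_eq_zero (mem_univ i) ?_
      simp [hij]; ring
  have e2 : ∀ x : ι → ZMod 2, pw β x * (∑ i, a i * (ind (x i) - (1 / 2 - β i))) ^ 2 =
      ∑ i, ∑ j, a i * a j *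
        (pw β x * ((ind (x i) - (1 / 2 - β i)) * (ind (x j) - (1 / 2 - β j)))) := by
    intro x
    rw [sq, sum_mul_sum, mul_sum]
    refine sum_congr rfl fun i _ => ?_
    rw [mul_sum]
    refine sum_congr rfl fun j _ => ?_
    ring
  simp_rw [e2]
  rw [sum_comm]
  refine sum_le_sum fun i _ => ?_
  rw [sum_comm]
  simp_rw [← mul_sum, key]
  rw [sum_eq_single i]
  · simp only [if_true]
    nlinarith [sq_nonneg (a i), sq_nonneg (β i), mul_nonneg (sq_nonneg (a i)) (sq_nonneg (β i))]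
  · intro j _ hj
    simp [hj.symm]
  · simp

lemma tv_le {β : ι → ℝ} (h0 : ∀ i, 0 ≤ β i) (h1 : ∀ i, β i ≤ 1 / 3) (h : ι → ZMod 2) :
    ∑ x, max (pw β x - pw β (x + h)) 0 ≤ 8 * Real.sqrt (∑ i, β i ^ 2 * ind (h i)) := by
  set q := ∑ i, β i ^ 2 * ind (h i) with hq
  have hq0 : 0 ≤ q := sum_nonneg fun i _ => mul_nonneg (sq_nonneg _) (ind_nonneg _)
  have hpos := pw_pos h0 h1
  by_cases hs : q ≤ 1 / 29
  · have hsum : ∑ x, pw β (x + h) = 1 := by
      rw [← sum_pw β]
      exact Equiv.sum_comp (Equiv.addRight h) (pw β)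
    have hc := chi_le h0 h1 h
    rw [← hq] at hc
    have he : Real.exp (29 * q) - 1 ≤ 58 * q := by
      have := Real.abs_exp_sub_one_le (x := 29 * q) (by rw [abs_of_nonneg (by positivity)]; linarith)
      rw [abs_of_nonneg (a := 29 * q) (by positivity)] at this
      linarith [le_abs_self (Real.exp (29 * q) - 1)]
    have hT := sq_sum_div_le_sum_sq_div univ (fun x => max (pw β x - pw β (x + h)) 0)
      (g := pw β) (fun x _ => hpos x)
    rw [sum_pw, div_one] at hT
    have hB : ∑ x, (max (pw β x - pw β (x + h)) 0) ^ 2 / pw β x ≤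
        ∑ x, (pw β (x + h) ^ 2 / pw β x - 2 * pw β (x + h) + pw β x) := by
      refine sum_le_sum fun x _ => ?_
      have hx := hpos x
      have : pw β (x + h) ^ 2 / pw β x - 2 * pw β (x + h) + pw β x =
          (pw β x - pw β (x + h)) ^ 2 / pw β x := by
        field_simp; ring
      rw [this]
      refine div_le_div_of_nonneg_right ?_ hx.le
      rcases le_total (pw β x - pw β (x + h)) 0 with hh | hh
      · rw [max_eq_right hh]; simp [sq_nonneg]
      · rw [max_eq_left hh]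
    rw [sum_add_distrib, sum_sub_distrib, ← mul_sum, hsum, sum_pw] at hB
    have h64 : (∑ x, max (pw β x - pw β (x + h)) 0) ^ 2 ≤ (8 * Real.sqrt q) ^ 2 := by
      rw [mul_pow, Real.sq_sqrt hq0]; linarith
    exact (pow_le_pow_iff_left₀ (sum_nonneg fun x _ => le_max_right _ _) (by positivity)
      two_ne_zero).1 h64
  · have h1' : ∑ x, max (pw β x - pw β (x + h)) 0 ≤ 1 := by
      rw [← sum_pw β]
      refine sum_le_sum fun x _ => max_le ?_ (hpos x).le
      linarith [hpos (x + h)]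
    have h2 : 1 / 8 ≤ Real.sqrt q := by
      apply Real.le_sqrt_of_sq_le
      push Not at hs
      linarith
    linarith

end

end Pool.Agent.MP_9152e2_an
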