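import Mathlib

set_option autoImplicit false

open MeasureTheory Filter Topology

namespace Pool.Agent.MP_9152e2_an

/-- `G` has an increasing sequence of compact subgroups with dense union which, for a compatible
right-invariant metric and the normalised Haar measures, form a Levy family. -/
def IsLevyGroup (G : Type) [Group G] [t : TopologicalSpace G] [MeasurableSpace G] : Prop :=
  ∃ (K : ℕ → Subgroup G) (d : MetricSpace G) (m : ∀ n, Measure (K n)),
    Monotone K ∧ (∀ n, IsCompact (K n : Set G)) ∧ Dense (⋃ n, (K n : Set G)) ∧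
    d.toPseudoMetricSpace.toUniformSpace.toTopologicalSpace = t ∧
    (∀ x y g : G, d.dist (x * g) (y * g) = d.dist x y) ∧
    (∀ n, (m n).IsHaarMeasure ∧ IsProbabilityMeasure (m n)) ∧
    ∀ A : ∀ n, Set (K n), (∀ n, MeasurableSet (A n)) →
      0 < liminf (fun n => m n (A n)) atTop →
      ∀ ε : ℝ, 0 < ε →
        Tendsto (fun n => m n {x | ∃ a ∈ A n, d.dist (x : G) (a : G) < ε}) atTop (𝓝 1)

/-- The action of `G` on `X` is jointly Borel, `μ` is sigma-finite and non-atomic, every
element of `G` preserves the class of `μ`, and invariant Borel sets are null or conull. -/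
def IsErgodicSpatial (G X : Type) [Group G] [MeasurableSpace G] [MeasurableSpace X]
    [MulAction G X] (μ : Measure X) : Prop :=
  Measurable (fun p : G × X => p.1 • p.2) ∧ SigmaFinite μ ∧ (∀ x, μ {x} = 0) ∧
    (∀ g : G, μ.map (fun x => g • x) ≪ μ ∧ μ ≪ μ.map (fun x => g • x)) ∧
    ∀ S : Set X, MeasurableSet S → (∀ g : G, (fun x => g • x) ⁻¹' S = S) →
      μ S = 0 ∨ μ Sᶜ = 0

end Pool.Agent.MP_9152e2_an
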