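import Pool.Agent.MP_9152e2_an.Sys

/-! The quotient group is a Levy group. -/

set_option autoImplicit false
set_option linter.style.haveILetI false

open MeasureTheory Set Filter Topology
open scoped ENNReal

namespace Pool.Agent.MP_9152e2_an

noncomputable section

/-- the cube of light coordinates, written multiplicatively -/
def Lc (n : ℕ) : Type := Multiplicative (Lt n → ZMod 2)

instance (n : ℕ) : CommGroup (Lc n) := inferInstanceAs (CommGroup (Multiplicative (Lt n → ZMod 2)))
instance (n : ℕ) : Fintype (Lc n) := inferInstanceAs (Fintype (Lt n → ZMod 2))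
instance (n : ℕ) : MeasurableSpace (Lc n) := ⊤
instance (n : ℕ) : DiscreteMeasurableSpace (Lc n) := ⟨fun _ => trivial⟩

/-- extension by zero -/
def lam (n : ℕ) (y : Lt n → ZMod 2) : F n := Sum.elim y (fun _ => 0)

lemma lam_add (n : ℕ) (y z : Lt n → ZMod 2) : lam n (y + z) = lam n y + lam n z :=
  F_ext fun i => by rcases i with i | i <;> simp [lam]

lemma lam_zero (n : ℕ) : lam n 0 = 0 := F_ext fun i => by rcases i with i | i <;> rfl

/-- the cube inside the quotient group -/
def phi (n : ℕ) : Lc n →* SS.Grp where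
  toFun y := SS.qk (lp.single 1 n (lam n (Multiplicative.toAdd y)))
  map_one' := by
    change SS.qk (lp.single 1 n (lam n 0)) = 1
    rw [lam_zero, lp.single_zero, SS.mk_zero]
  map_mul' y z := by
    change SS.qk (lp.single 1 n (lam n (Multiplicative.toAdd y + Multiplicative.toAdd z))) = _
    rw [lam_add, lp.single_add, SS.mk_add]

lemma phi_apply (n : ℕ) (y : Lt n → ZMod 2) :
    phi n (Multiplicative.ofAdd y) = SS.qk (lp.single 1 n (lam n y)) := rfl

lemma jH_single (n : ℕ) (a : F n) : jH (lp.single 1 n a) = Pi.single n a := rfl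

lemma single_mem (n : ℕ) (a : F n) : SS.qk (lp.single 1 n a) ∈ (phi (n + 1)).range := by
  let u : P (n + 1) → ZMod 2 := a
  refine ⟨Multiplicative.ofAdd (fun l => u l.1), ?_⟩
  rw [phi_apply, SS.mk_eq]
  let v : Π n, P n → ZMod 2 := Pi.single (n + 1) u
  refine ⟨v, FS.single (G := fun n => P n → ZMod 2) (n + 1) u, ?_⟩
  rw [map_sub, jH_single, jH_single]
  funext m
  have hv : ∀ k, k ≠ n + 1 → v k = 0 := fun k hk =>
    Pi.single_eq_of_ne (M := fun n => P n → ZMod 2) hk u
  have hv' : v (n + 1) = u := Pi.single_eq_same (M := fun n => P n → ZMod 2) _ u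
  rw [Pi.sub_apply, F_sub_eq]
  unfold bd
  congr 1
  · by_cases hm : m = n
    · subst hm
      rw [Pi.single_eq_same, hv']; rfl
    · rw [Pi.single_eq_of_ne hm, hv _ (by omega), up_zero]
  · by_cases hm : m = n + 1
    · subst hm
      rw [Pi.single_eq_same, hv']; rfl
    · rw [Pi.single_eq_of_ne hm, hv _ hm, pull_zero]

lemma K_mono : Monotone fun n => (phi n).range := by
  refine monotone_nat_of_le_succ fun n => ?_
  rintro _ ⟨y, rfl⟩
  exact single_mem n _

lemma FS_mem : ∀ (N : ℕ) (h : HH), (∀ n ≥ N, jH h n = 0) → SS.qk h ∈ (phi N).range := by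
  intro N
  induction N with
  | zero =>
    intro h hh
    have : h = 0 := jH_inj (funext fun n => hh n (Nat.zero_le n))
    rw [this, SS.mk_zero]
    exact one_mem _
  | succ N ih =>
    intro h hh
    have e : h = (h - lp.single 1 N (jH h N)) + lp.single 1 N (jH h N) := by abel
    rw [e, SS.mk_add]
    refine mul_mem (K_mono (Nat.le_succ N) (ih _ fun n hn => ?_)) (single_mem N _)
    rw [map_sub, jH_single, Pi.sub_apply]
    rcases hn.eq_or_lt with rfl | hlt
    · rw [Pi.single_eq_same, sub_self]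
    · rw [Pi.single_eq_of_ne hlt.ne', hh n hlt, sub_self]

lemma K_dense : Dense (⋃ n, ((phi n).range : Set SS.Grp)) := by
  refine (SS.mk_surj.denseRange.dense_image SS.mk_cont dense_FS).mono ?_
  rintro _ ⟨h, ⟨N, hN⟩, rfl⟩
  exact mem_iUnion.2 ⟨N, FS_mem N h hN⟩

lemma dist_phi (n : ℕ) (y z : Lt n → ZMod 2) :
    dist (phi n (Multiplicative.ofAdd y)) (phi n (Multiplicative.ofAdd z)) ≤
      Real.sqrt (ww n * hammingDist z y) := by
  rw [phi_apply, phi_apply]
  refine (SS.dist_mk_le _ _).trans (le_of_eq ?_)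
  rw [← lp.single_sub, lp.norm_single zero_lt_one, F_norm, qq_eq]
  congr 1
  have h1 : ∑ t : Hv n, ind ((lam n y - lam n z) (Sum.inr t)) = 0 := by simp [lam]
  rw [h1, add_zero]
  congr 1
  unfold hammingDist
  rw [Finset.card_filter]
  push_cast
  refine Finset.sum_congr rfl fun l _ => ?_
  simp only [F_sub, lam, Sum.elim_inl, ind, sub_eq_zero]
  by_cases h : y l = z l
  · simp [h]
  · simp [h, Ne.symm h]

/-- uniform measure on the cube -/
def uu (n : ℕ) : Measure (Lc n) := (Fintype.card (Lc n) : ℝ≥0∞)⁻¹ • Measure.count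

instance (n : ℕ) : IsProbabilityMeasure (uu n) := ⟨by
  rw [uu, Measure.smul_apply, ← Finset.coe_univ, Measure.count_apply_finset, Finset.card_univ,
    smul_eq_mul, ENNReal.inv_mul_cancel (by simp) (by simp)]⟩

instance (n : ℕ) : (uu n).IsMulLeftInvariant := by unfold uu; infer_instance

lemma uu_real (n : ℕ) (A : Finset (Lt n → ZMod 2)) (S : Set (Lc n))
    (h : ∀ y, y ∈ A ↔ Multiplicative.ofAdd y ∈ S) :
    (uu n).real S = A.card / 2 ^ Fintype.card (Lt n) := by
  let A' : Finset (Lc n) := A
  have e : S = (A' : Set (Lc n)) := Set.ext fun y => (h y).symm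
  have hc : Fintype.card (Lc n) = 2 ^ Fintype.card (Lt n) := by
    change Fintype.card (Lt n → ZMod 2) = _
    simp [ZMod.card]
  rw [e, Measure.real, uu, Measure.smul_apply, Measure.count_apply_finset, smul_eq_mul, hc,
    ENNReal.toReal_mul, ENNReal.toReal_inv, ENNReal.toReal_natCast, ENNReal.toReal_natCast]
  push_cast
  rw [div_eq_inv_mul]
  rfl

/-- Haar measure on the n-th compact subgroup -/
def mK (n : ℕ) : Measure (phi n).range := (uu n).map (phi n).rangeRestrict

instance (n : ℕ) : IsProbabilityMeasure (mK n) :=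
  Measure.isProbabilityMeasure_map (Measurable.of_discrete).aemeasurable

lemma mK_haar (n : ℕ) : (mK n).IsHaarMeasure where
  toIsMulLeftInvariant := isMulLeftInvariant_map (phi n).rangeRestrict.toMulHom
    Measurable.of_discrete (phi n).rangeRestrict_surjective
  open_pos U hU hne := by
    rw [mK, Measure.map_apply Measurable.of_discrete hU.measurableSet, uu, Measure.smul_apply,
      smul_eq_mul]
    obtain ⟨x, hx⟩ := hne
    obtain ⟨y, rfl⟩ := (phi n).rangeRestrict_surjective x
    exact mul_ne_zero (by simp) (Measure.count_ne_zero_iff.2 ⟨y, hx⟩)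

lemma levy_arith (a b c N w ε δ r : ℝ) (hN : 0 < N) (hw : 0 < w) (hε : 0 < ε) (hδ : 0 < δ)
    (hb : 0 ≤ b) (hδA : δ ≤ a / N) (hc : a * b * (ε ^ 2 / w) ^ 2 ≤ c * N ^ 2 / 2)
    (hcard : c * w ^ 2 ≤ r) : b / N ≤ r / (2 * ε ^ 4 * δ) := by
  rw [le_div_iff₀ (by positivity)]
  have hB0 : (0 : ℝ) ≤ b / N := by positivity
  have h3 : (a / N) * (b / N) * ε ^ 4 ≤ c * w ^ 2 / 2 := by
    have e1 : (a / N) * (b / N) * ε ^ 4 = (a * b * (ε ^ 2 / w) ^ 2) * (w ^ 2 / N ^ 2) := by
      field_simp
    rw [e1]
    refine (mul_le_mul_of_nonneg_right hc (by positivity)).trans (le_of_eq ?_)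
    field_simp
  have h4 : δ * (b / N) * ε ^ 4 ≤ (a / N) * (b / N) * ε ^ 4 := by
    gcongr
  nlinarith

theorem isLevy : IsLevyGroup SS.Grp := by
  refine ⟨fun n => (phi n).range, inferInstance, mK, K_mono,
    fun n => (Set.finite_range (phi n)).isCompact, K_dense, rfl,
    fun x y g => dist_mul_right x y g, fun n => ⟨mK_haar n, inferInstance⟩, ?_⟩
  intro A hA hlim ε hε
  classical
  obtain ⟨δ, hδ0, hδ⟩ := exists_between hlim
  have hδt : δ ≠ ∞ := ne_top_of_lt hδ
  have hev := eventually_lt_of_lt_liminf hδ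
  set T : ∀ n, Set (phi n).range := fun n => {x | ∃ a ∈ A n, dist (x : SS.Grp) (a : SS.Grp) < ε}
    with hT
  have hTm : ∀ n, MeasurableSet (T n) := fun n => by
    haveI : Finite (phi n).range := (Set.finite_range (phi n)).to_subtype
    exact (toFinite _).measurableSet
  have hδr : 0 < δ.toReal := ENNReal.toReal_pos hδ0.ne' hδt
  have hbound : ∀ᶠ n in atTop, (mK n).real (T n)ᶜ ≤ (1 / 2) ^ n / (2 * ε ^ 4 * δ.toReal) := by
    filter_upwards [hev] with n hn
    set A' : Finset (Lt n → ZMod 2) :=
      Finset.univ.filter fun y => (phi n).rangeRestrict (Multiplicative.ofAdd y) ∈ A n with hA'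
    set B' : Finset (Lt n → ZMod 2) :=
      Finset.univ.filter fun y => (phi n).rangeRestrict (Multiplicative.ofAdd y) ∈ (T n)ᶜ with hB'
    have eA : (mK n).real (A n) = A'.card / 2 ^ Fintype.card (Lt n) := by
      rw [mK, map_measureReal_apply Measurable.of_discrete (hA n)]
      exact uu_real n A' _ fun y => by
        simp only [hA', Finset.mem_filter, Finset.mem_univ, true_and]
        exact Iff.rfl
    have eB : (mK n).real (T n)ᶜ = B'.card / 2 ^ Fintype.card (Lt n) := by
      rw [mK, map_measureReal_apply Measurable.of_discrete (hTm n).compl]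
      exact uu_real n B' _ fun y => by
        simp only [hB', Finset.mem_filter, Finset.mem_univ, true_and]
        exact Iff.rfl
    have hw := ww_pos n
    have hc := cube_conc A' B' (ε ^ 2 / ww n) (by positivity) (by
      intro a ha b hb
      simp only [hA', hB', Finset.mem_filter, Finset.mem_univ, true_and] at ha hb
      have h1 : ε ≤ dist (phi n (Multiplicative.ofAdd b)) (phi n (Multiplicative.ofAdd a)) := by
        by_contra hlt
        exact hb ⟨_, ha, not_le.1 hlt⟩
      have h2 := h1.trans (dist_phi n b a)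
      rw [Real.le_sqrt hε.le (by positivity)] at h2
      rw [div_le_iff₀ hw]
      linarith)
    have hδA : δ.toReal ≤ (mK n).real (A n) := ENNReal.toReal_mono (measure_ne_top _ _) hn.le
    have hN : (0 : ℝ) < 2 ^ Fintype.card (Lt n) := by positivity
    have hcard : (Fintype.card (Lt n) : ℝ) * ww n ^ 2 ≤ (1 / 2) ^ n := by
      refine le_trans (le_of_eq ?_) (pp_div_ss n)
      rw [card_Lt]
      push_cast
      have hs := ss_pos n
      rw [sq, mul_assoc, ← mul_assoc (mm n : ℝ), mul_comm (mm n : ℝ), ww_mm, ww]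
      field_simp
    rw [eA] at hδA
    rw [eB]
    exact levy_arith _ _ _ _ _ _ _ _ hN hw hε hδr (Nat.cast_nonneg _) hδA hc hcard
  have hlim0 : Tendsto (fun n => (mK n).real (T n)ᶜ) atTop (𝓝 0) := by
    refine squeeze_zero' (Eventually.of_forall fun n => measureReal_nonneg) hbound ?_
    simpa using (tendsto_pow_atTop_nhds_zero_of_lt_one (r := (1 / 2 : ℝ)) (by norm_num)
      (by norm_num)).div_const (2 * ε ^ 4 * δ.toReal)
  have e : ∀ n, mK n (T n) = ENNReal.ofReal (1 - (mK n).real (T n)ᶜ) := by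
    intro n
    rw [probReal_compl_eq_one_sub (hTm n), sub_sub_cancel, ofReal_measureReal]
  change Tendsto (fun n => mK n (T n)) atTop (𝓝 1)
  simp_rw [e]
  simpa using ENNReal.tendsto_ofReal (hlim0.const_sub 1)

end

end Pool.Agent.MP_9152e2_an
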