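import Mathlib

/-! Measures on countable products of finite groups. -/

set_option autoImplicit false

open MeasureTheory Set Filter Topology
open scoped ENNReal symmDiff

namespace Pool.Agent.MP_9152e2_an

noncomputable section

section Ext

variable {E : Type} [AddCommGroup E] [MeasurableSpace E] [MeasurableAdd E]

theorem exists_invariant_extension (Q : Measure E) [IsFiniteMeasure Q] (A : Set E)
    (hA : MeasurableSet A) (γ : ℕ → E) (hγ0 : ∃ k, γ k = 0)
    (PI : ∀ (h : E) (S : Set E), MeasurableSet S → S ⊆ A → (· + h) ⁻¹' S ⊆ A →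
      Q ((· + h) ⁻¹' S) = Q S)
    (hU : ∀ k x, x + γ k ∈ (⋃ k, (· + γ k) ⁻¹' A) ↔ x ∈ (⋃ k, (· + γ k) ⁻¹' A)) :
    ∃ ν : Measure E, SigmaFinite ν ∧ (∀ S, MeasurableSet S → S ⊆ A → ν S = Q S) ∧
      (∀ S, MeasurableSet S → (∀ k, Q ((· + -γ k) ⁻¹' S) = 0) → ν S = 0) ∧
      ν (⋃ k, (· + γ k) ⁻¹' A)ᶜ = 0 ∧
      ∀ h : E, Q ((· + h) ⁻¹' (⋃ k, (· + γ k) ⁻¹' A)ᶜ) = 0 →
        Q ((· + -h) ⁻¹' (⋃ k, (· + γ k) ⁻¹' A)ᶜ) = 0 → ν.map (· + h) = ν := by
  set U := ⋃ k, (· + γ k) ⁻¹' A with hUdef
  have mt : ∀ g : E, Measurable (fun x : E => x + g) := fun g => measurable_add_const g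
  set Z : ℕ → Set E := disjointed (fun k => (· + γ k) ⁻¹' A) with hZ
  have hZm : ∀ k, MeasurableSet (Z k) := MeasurableSet.disjointed fun k => mt _ hA
  have hZd : Pairwise (Function.onFun Disjoint Z) := disjoint_disjointed _
  have hZU : ⋃ k, Z k = U := iUnion_disjointed
  have hZs : ∀ k, Z k ⊆ (· + γ k) ⁻¹' A := disjointed_subset _
  have hUm : MeasurableSet U := MeasurableSet.iUnion fun k => mt _ hA
  set ν : Measure E := Measure.sum (fun k => (Q.map (· + -γ k)).restrict (Z k)) with hν
  have hνS : ∀ S, MeasurableSet S → ν S = ∑' k, Q ((· + -γ k) ⁻¹' (S ∩ Z k)) := by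
    intro S hS
    rw [hν, Measure.sum_apply _ hS]
    refine tsum_congr fun k => ?_
    rw [Measure.restrict_apply hS, Measure.map_apply (mt _) (hS.inter (hZm k))]
  have hsplit : ∀ (ρ : Measure E) (f : E → E), Measurable f → ∀ S, MeasurableSet S → S ⊆ U →
      ρ (f ⁻¹' S) = ∑' k, ρ (f ⁻¹' (S ∩ Z k)) := by
    intro ρ f hf S hS hSU
    rw [← measure_iUnion]
    · congr 1
      rw [← preimage_iUnion, ← inter_iUnion, hZU, inter_eq_self_of_subset_left hSU]
    · intro i j hij
      exact Disjoint.preimage f ((hZd hij).mono inter_subset_right inter_subset_right)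
    · exact fun k => hf (hS.inter (hZm k))
  have K1 : ∀ (g : E) (S : Set E), MeasurableSet S → S ⊆ U → S ⊆ (· + g) ⁻¹' A →
      ν S = Q ((· + -g) ⁻¹' S) := by
    intro g S hS hSU hSA
    rw [hνS S hS, hsplit Q _ (mt _) S hS hSU]
    refine tsum_congr fun k => ?_
    have e : (· + -γ k) ⁻¹' (S ∩ Z k) = (· + (g - γ k)) ⁻¹' ((· + -g) ⁻¹' (S ∩ Z k)) := by
      ext x
      simp only [mem_preimage]
      rw [show x + (g - γ k) + -g = x + -γ k by abel]
    rw [e]
    refine PI _ _ (mt _ (hS.inter (hZm k))) ?_ ?_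
    · intro x hx
      have := hSA hx.1
      simpa using this
    · rw [← e]
      intro x hx
      have := hZs k hx.2
      simpa using this
  have hAU : A ⊆ U := by
    obtain ⟨k, hk⟩ := hγ0
    intro x hx
    exact mem_iUnion.2 ⟨k, by simpa [hk] using hx⟩
  have hnull : ∀ S, MeasurableSet S → (∀ k, Q ((· + -γ k) ⁻¹' S) = 0) → ν S = 0 := by
    intro S hS h
    rw [hνS S hS, ENNReal.tsum_eq_zero]
    exact fun k => measure_mono_null (preimage_mono inter_subset_left) (h k)
  have hνU : ν Uᶜ = 0 := by
    rw [hνS _ hUm.compl, ENNReal.tsum_eq_zero]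
    intro k
    have : Uᶜ ∩ Z k = ∅ := by
      rw [← hZU]
      exact eq_empty_of_forall_notMem fun x hx => hx.1 (mem_iUnion.2 ⟨k, hx.2⟩)
    simp [this]
  have hνh : ∀ h : E, Q ((· + h) ⁻¹' Uᶜ) = 0 → ν ((· + h) ⁻¹' Uᶜ) = 0 := by
    intro h hh
    refine hnull _ (mt _ hUm.compl) fun k => ?_
    convert hh using 2
    ext x
    simp only [mem_preimage, mem_compl_iff]
    rw [← hU k (x + -γ k + h), show x + -γ k + h + γ k = x + h by abel]
  refine ⟨ν, ?_, ?_, hnull, hνU, ?_⟩
  · refine Measure.sigmaFinite_of_countable (S := insert Uᶜ (range Z))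
      ((countable_range Z).insert _) ?_ ?_
    · rintro s (rfl | ⟨k, rfl⟩)
      · rw [hνU]; exact ENNReal.zero_lt_top
      · rw [K1 (γ k) _ (hZm k) (hZU ▸ subset_iUnion Z k) (hZs k)]
        exact measure_lt_top _ _
    · rw [sUnion_insert, sUnion_range, hZU, compl_union_self]
  · intro S hS hSA
    rw [K1 0 S hS (hSA.trans hAU) (by simpa using hSA)]
    simp
  · intro h h1 h2
    ext S hS
    rw [Measure.map_apply (mt h) hS]
    set S1 := S ∩ U ∩ (· + -h) ⁻¹' U with hS1
    have hS1m : MeasurableSet S1 := (hS.inter hUm).inter (mt _ hUm)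
    have e1 : ν S = ν S1 := by
      refine le_antisymm ?_ (measure_mono (inter_subset_left.trans inter_subset_left))
      calc ν S ≤ ν (S1 ∪ (Uᶜ ∪ (· + -h) ⁻¹' Uᶜ)) := by
            refine measure_mono fun x hx => ?_
            by_cases a : x ∈ U
            · by_cases b : x + -h ∈ U
              · exact Or.inl ⟨⟨hx, a⟩, b⟩
              · exact Or.inr (Or.inr b)
            · exact Or.inr (Or.inl a)
        _ ≤ ν S1 + (ν Uᶜ + ν ((· + -h) ⁻¹' Uᶜ)) :=
            (measure_union_le _ _).trans (add_le_add le_rfl (measure_union_le _ _))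
        _ = ν S1 := by rw [hνU, hνh _ h2]; simp
    have e2 : ν ((· + h) ⁻¹' S) = ν ((· + h) ⁻¹' S1) := by
      refine le_antisymm ?_
        (measure_mono (preimage_mono (inter_subset_left.trans inter_subset_left)))
      calc ν ((· + h) ⁻¹' S) ≤ ν ((· + h) ⁻¹' S1 ∪ (Uᶜ ∪ (· + h) ⁻¹' Uᶜ)) := by
            refine measure_mono fun x hx => ?_
            by_cases a : x ∈ U
            · by_cases b : x + h ∈ U
              · exact Or.inl ⟨⟨hx, b⟩, by simpa using a⟩
              · exact Or.inr (Or.inr b)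
            · exact Or.inr (Or.inl a)
        _ ≤ ν ((· + h) ⁻¹' S1) + (ν Uᶜ + ν ((· + h) ⁻¹' Uᶜ)) :=
            (measure_union_le _ _).trans (add_le_add le_rfl (measure_union_le _ _))
        _ = ν ((· + h) ⁻¹' S1) := by rw [hνU, hνh _ h1]; simp
    have hS1U : S1 ⊆ U := inter_subset_left.trans inter_subset_right
    rw [e1, e2, hsplit ν _ (mt h) S1 hS1m hS1U, hνS S1 hS1m]
    refine tsum_congr fun k => ?_
    rw [K1 (h + γ k) _ (mt h (hS1m.inter (hZm k)))]
    · congr 1
      ext x
      simp only [mem_preimage]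
      rw [show x + -(h + γ k) + h = x + -γ k by abel]
    · intro x hx
      have := hx.1.2
      simpa using this
    · intro x hx
      have := hZs k hx.2
      simpa [add_assoc] using this

end Ext

variable {F : ℕ → Type} [∀ n, MeasurableSpace (F n)]

lemma ext_boxes {ρ1 ρ2 : Measure (Π n, F n)} [IsFiniteMeasure ρ1]
    (h : ∀ t : Π n, Set (F n), (∀ n, MeasurableSet (t n)) → ρ1 (univ.pi t) = ρ2 (univ.pi t)) :
    ρ1 = ρ2 := by
  refine ext_of_generate_finite _ generateFrom_squareCylinders.symm
    (isPiSystem_squareCylinders (fun _ => MeasurableSpace.isPiSystem_measurableSet)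
      (fun _ => MeasurableSet.univ)) ?_ ?_
  · rintro _ ⟨s, t, ht, rfl⟩
    have : (s : Set ℕ).pi t = univ.pi (fun n => if n ∈ s then t n else univ) := by
      ext x
      simp only [Set.mem_pi, Finset.mem_coe, mem_univ, true_imp_iff]
      refine forall_congr' fun n => ?_
      split_ifs with hn <;> simp [hn]
    rw [this]
    refine h _ fun n => ?_
    split_ifs
    · exact ht n (mem_univ n)
    · exact MeasurableSet.univ
  · simpa using h (fun _ => univ) (fun _ => MeasurableSet.univ)

variable (μ : ∀ n, Measure (F n)) [∀ n, IsProbabilityMeasure (μ n)]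

lemma noAtoms_infinitePi [∀ n, MeasurableSingletonClass (F n)] (c : ℝ≥0∞) (hc : c < 1)
    (h : ∀ n y, μ n {y} ≤ c) : NullSingletonClass (Measure.infinitePi μ) := by
  constructor
  intro x
  have hle : ∀ N : ℕ, Measure.infinitePi μ {x} ≤ c ^ N := by
    intro N
    calc Measure.infinitePi μ {x}
        ≤ Measure.infinitePi μ (((Finset.range N : Finset ℕ) : Set ℕ).pi fun n => {x n}) := by
          refine measure_mono ?_
          rintro _ rfl n _
          rfl
      _ = ∏ n ∈ Finset.range N, μ n {x n} :=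
          Measure.infinitePi_pi μ fun n _ => measurableSet_singleton _
      _ ≤ ∏ _n ∈ Finset.range N, c := Finset.prod_le_prod' fun n _ => h n _
      _ = c ^ N := by simp
  exact le_antisymm (ge_of_tendsto' (ENNReal.tendsto_pow_atTop_nhds_zero_of_lt_one hc) hle)
    zero_le

lemma split_coord [∀ n, Fintype (F n)] [∀ n, MeasurableSingletonClass (F n)] (n : ℕ)
    (S : Set (Π n, F n)) (hS : MeasurableSet S) :
    Measure.infinitePi μ S =
      ∑ y, μ n {y} * Measure.infinitePi μ ((fun x => Function.update x n y) ⁻¹' S) := by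
  have mu : ∀ y : F n, Measurable (fun x : Π n, F n => Function.update x n y) :=
    fun y => measurable_update_left
  have key : (∑ y, μ n {y} • (Measure.infinitePi μ).map (fun x => Function.update x n y)) =
      Measure.infinitePi μ := by
    refine Measure.eq_infinitePi μ fun s t ht => ?_
    have hm : MeasurableSet ((s : Set ℕ).pi t) := .pi s.countable_toSet fun i _ => ht i
    rw [Measure.finsetSum_apply]
    simp only [Measure.smul_apply, smul_eq_mul, Measure.map_apply (mu _) hm]
    by_cases hn : n ∈ s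
    · have e : ∀ y : F n, Measure.infinitePi μ
          ((fun x => Function.update x n y) ⁻¹' (s : Set ℕ).pi t) =
          (t n).indicator (fun _ => ∏ i ∈ s.erase n, μ i (t i)) y := by
        intro y
        by_cases hy : y ∈ t n
        · rw [indicator_of_mem hy, ← Measure.infinitePi_pi μ fun i _ => ht i]
          congr 1
          ext x
          simp only [mem_preimage, Set.mem_pi, Finset.mem_coe, Finset.mem_erase]
          constructor
          · rintro h i ⟨hi, his⟩
            simpa [Function.update_of_ne hi] using h i his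
          · intro h i his
            by_cases hi : i = n
            · subst hi; simpa using hy
            · simpa [Function.update_of_ne hi] using h i ⟨hi, his⟩
        · rw [indicator_of_notMem hy]
          convert measure_empty (μ := Measure.infinitePi μ)
          refine eq_empty_of_forall_notMem fun x hx => hy ?_
          simpa using hx n hn
      simp_rw [e]
      rw [← Finset.mul_prod_erase s (fun i => μ i (t i)) hn]
      classical
      have : μ n (t n) = ∑ y, (t n).indicator (fun y => μ n {y}) y := by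
        rw [Finset.sum_indicator_eq_sum_filter, sum_measure_singleton]
        congr 1
        ext y; simp
      rw [this, Finset.sum_mul]
      refine Finset.sum_congr rfl fun y _ => ?_
      by_cases hy : y ∈ t n <;> simp [hy]
    · have e : ∀ y : F n, (fun x => Function.update x n y) ⁻¹' (s : Set ℕ).pi t =
          (s : Set ℕ).pi t := by
        intro y
        ext x
        simp only [mem_preimage, Set.mem_pi, Finset.mem_coe]
        refine forall₂_congr fun i hi => ?_
        rw [Function.update_of_ne (by rintro rfl; exact hn hi)]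
      simp_rw [e]
      rw [← Finset.sum_mul, sum_measure_singleton, Finset.coe_univ, measure_univ, one_mul,
        Measure.infinitePi_pi μ fun i _ => ht i]
  conv_lhs => rw [← key]
  rw [Measure.finsetSum_apply]
  simp only [Measure.smul_apply, smul_eq_mul, Measure.map_apply (mu _) hS]

variable [∀ n, AddCommGroup (F n)]

lemma zero_one (S : Set (Π n, F n)) (hS : MeasurableSet S)
    (hinv : ∀ γ : Π n, F n, (∃ N, ∀ n ≥ N, γ n = 0) → ∀ x, x + γ ∈ S ↔ x ∈ S) :
    Measure.infinitePi μ S = 0 ∨ Measure.infinitePi μ S = 1 := by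
  have hind : ProbabilityTheory.iIndepFun (fun n (x : Π n, F n) => x n) (Measure.infinitePi μ) :=
    ProbabilityTheory.iIndepFun_infinitePi (X := fun _ y => y) (fun _ => measurable_id)
  refine ProbabilityTheory.measure_zero_or_one_of_measurableSet_limsup_atTop
    (s := fun n => MeasurableSpace.comap (fun x : Π n, F n => x n) inferInstance)
    (fun n => (measurable_pi_apply n).comap_le) hind ?_
  rw [limsup_eq_iInf_iSup_of_nat, MeasurableSpace.measurableSet_iInf]
  intro N
  let z : (Π n, F n) → (Π n, F n) := fun x n => if n < N then 0 else x n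
  have hz : S = z ⁻¹' S := by
    ext x
    rw [mem_preimage, ← hinv (z x - x) ⟨N, fun n hn => by simp [z, not_lt.2 hn]⟩ x]
    simp
  rw [hz]
  have : @Measurable _ _ (⨆ i, ⨆ _ : i ≥ N,
      MeasurableSpace.comap (fun x : Π n, F n => x i) inferInstance) _ z := by
    refine @measurable_pi_lambda _ _ _ (_) _ _ fun n => ?_
    by_cases hn : n < N
    · simp only [z, hn, if_true]
      exact measurable_const
    · simp only [z, hn, if_false]
      refine Measurable.of_comap_le ?_
      exact le_iSup₂_of_le (f := fun i (_ : i ≥ N) =>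
        MeasurableSpace.comap (fun x : Π n, F n => x i) inferInstance) n (not_lt.1 hn) le_rfl
  exact this hS

variable [∀ n, DiscreteMeasurableSpace (F n)]

lemma pseudo_invariant [∀ n, Countable (F n)] (h : Π n, F n) (G G' : Π n, Set (F n))
    (hG : ∀ n t, μ n ((· + h n) ⁻¹' t ∩ G n) = μ n (t ∩ G' n))
    (S : Set (Π n, F n)) (hS : MeasurableSet S) :
    Measure.infinitePi μ ((· + h) ⁻¹' S ∩ univ.pi G) = Measure.infinitePi μ (S ∩ univ.pi G') := by
  have mt : Measurable (fun x : Π n, F n => x + h) := measurable_add_const h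
  have key : ((Measure.infinitePi μ).restrict (univ.pi G)).map (· + h) =
      (Measure.infinitePi μ).restrict (univ.pi G') := by
    refine ext_boxes fun t ht => ?_
    have hm : MeasurableSet (univ.pi t) := .univ_pi ht
    rw [Measure.map_apply mt hm, Measure.restrict_apply (mt hm), Measure.restrict_apply hm]
    have e : (· + h) ⁻¹' univ.pi t = univ.pi (fun n => (· + h n) ⁻¹' t n) := by
      ext x; simp
    rw [e, ← pi_inter_distrib, ← pi_inter_distrib,
      Measure.infinitePi_pi_univ μ (fun _ => MeasurableSet.of_discrete),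
      Measure.infinitePi_pi_univ μ (fun _ => MeasurableSet.of_discrete)]
    exact tprod_congr fun n => hG n (t n)
  rw [← Measure.restrict_apply hS, ← key, Measure.map_apply mt hS, Measure.restrict_apply (mt hS)]

variable [∀ n, Fintype (F n)]

lemma cylinder_bound (h : Π n, F n) (K : ℝ) (hpos : ∀ n y, 0 < (μ n).real {y})
    (hK : ∀ I : Finset ℕ, ∏ n ∈ I, ∑ y, (μ n).real {y - h n} ^ 2 / (μ n).real {y} ≤ K)
    (C : Set (Π n, F n)) (hC : C ∈ measurableCylinders F) :
    (Measure.infinitePi μ).real ((· + h) ⁻¹' C) ^ 2 ≤ K * (Measure.infinitePi μ).real C := by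
  classical
  obtain ⟨I, S, -, rfl⟩ := (mem_measurableCylinders C).1 hC
  set w : (Π i : I, F i) → ℝ := fun z => ∏ i : I, (μ i).real {z i} with hw
  have hwpos : ∀ z, 0 < w z := fun z => Finset.prod_pos fun i _ => hpos i _
  have hmeas : ∀ T : Set (Π i : I, F i),
      (Measure.infinitePi μ).real (cylinder I T) = ∑ z ∈ T.toFinset, w z := by
    intro T
    rw [Measure.real, Measure.infinitePi_cylinder μ (MeasurableSet.of_discrete), ← Measure.real,
      ← T.coe_toFinset, ← sum_measureReal_singleton, Finset.toFinset_coe]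
    refine Finset.sum_congr rfl fun z _ => ?_
    rw [Measure.real, ← univ_pi_singleton, Measure.pi_pi, ENNReal.toReal_prod]
    rfl
  have e : (· + h) ⁻¹' cylinder I S = cylinder I ((· + I.restrict h) ⁻¹' S) := rfl
  rw [e, hmeas, hmeas]
  have e2 : ∑ z ∈ ((· + I.restrict h) ⁻¹' S).toFinset, w z =
      ∑ z ∈ S.toFinset, w (z - I.restrict h) := by
    refine Finset.sum_bijective (· + I.restrict h) (Equiv.addRight _).bijective ?_ ?_
    · intro z; simp
    · intro z _; simp
  rw [e2]
  have hT := Finset.sq_sum_div_le_sum_sq_div S.toFinset (fun z => w (z - I.restrict h))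
    (g := w) (fun z _ => hwpos z)
  have hB : ∑ z ∈ S.toFinset, w (z - I.restrict h) ^ 2 / w z ≤ K := by
    refine le_trans (Finset.sum_le_sum_of_subset_of_nonneg (Finset.subset_univ _)
      fun z _ _ => div_nonneg (sq_nonneg _) (hwpos z).le) ?_
    refine le_trans (le_of_eq ?_) (hK I)
    rw [← Finset.prod_coe_sort I, Finset.prod_univ_sum, Fintype.piFinset_univ]
    refine Finset.sum_congr rfl fun z _ => ?_
    rw [Finset.prod_div_distrib, Finset.prod_pow]
    rfl
  rcases S.toFinset.eq_empty_or_nonempty with h0 | h0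
  · simp [h0]
  · have hp : 0 < ∑ z ∈ S.toFinset, w z := Finset.sum_pos (fun z _ => hwpos z) h0
    rw [div_le_iff₀ hp] at hT
    exact hT.trans (mul_le_mul_of_nonneg_right hB hp.le)

lemma quasi_invariant (h : Π n, F n) (K : ℝ) (hpos : ∀ n y, 0 < (μ n).real {y})
    (hK : ∀ I : Finset ℕ, ∏ n ∈ I, ∑ y, (μ n).real {y - h n} ^ 2 / (μ n).real {y} ≤ K)
    (S : Set (Π n, F n)) (hS : MeasurableSet S) (h0 : Measure.infinitePi μ S = 0) :
    Measure.infinitePi μ ((· + h) ⁻¹' S) = 0 := by
  set P := Measure.infinitePi μ with hP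
  have mt : Measurable (fun x : Π n, F n => x + h) := measurable_add_const h
  have hK0 : 0 ≤ K := by simpa using (zero_le_one.trans (by simpa using hK ∅))
  have hD := Measure.MeasureDense.of_generateFrom_isSetAlgebra_finite (P + P.map (· + h))
    isSetAlgebra_measurableCylinders generateFrom_measurableCylinders.symm
  have key : ∀ η : ℝ, 0 < η → P.real ((· + h) ⁻¹' S) ≤ Real.sqrt (K * η) + η := by
    intro η hη
    obtain ⟨C, hC, hlt⟩ := hD.approx S hS (measure_ne_top _ _) η hη
    have hCm : MeasurableSet C := MeasurableSet.of_mem_measurableCylinders hC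
    rw [Measure.add_apply, Measure.map_apply mt (hS.symmDiff hCm)] at hlt
    have a1 : P.real (S ∆ C) ≤ η :=
      ENNReal.toReal_le_of_le_ofReal hη.le (le_trans le_self_add hlt.le)
    have a2 : P.real ((· + h) ⁻¹' (S ∆ C)) ≤ η :=
      ENNReal.toReal_le_of_le_ofReal hη.le (le_trans le_add_self hlt.le)
    have a3 : P.real C ≤ η := by
      calc P.real C ≤ P.real (S ∪ S ∆ C) := by
            refine measureReal_mono (fun x hx => ?_)
            by_cases hxS : x ∈ S
            · exact Or.inl hxS
            · exact Or.inr (Or.inr ⟨hx, hxS⟩)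
        _ ≤ P.real S + P.real (S ∆ C) := measureReal_union_le _ _
        _ ≤ η := by rw [Measure.real, h0]; simpa using a1
    have a4 : P.real ((· + h) ⁻¹' C) ≤ Real.sqrt (K * η) :=
      Real.le_sqrt_of_sq_le ((cylinder_bound μ h K hpos hK C hC).trans
        (mul_le_mul_of_nonneg_left a3 hK0))
    calc P.real ((· + h) ⁻¹' S) ≤ P.real ((· + h) ⁻¹' C ∪ (· + h) ⁻¹' (S ∆ C)) := by
          refine measureReal_mono (fun x hx => ?_)
          by_cases hxC : x + h ∈ C
          · exact Or.inl hxC
          · exact Or.inr (Or.inl ⟨hx, hxC⟩)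
      _ ≤ P.real ((· + h) ⁻¹' C) + P.real ((· + h) ⁻¹' (S ∆ C)) := measureReal_union_le _ _
      _ ≤ Real.sqrt (K * η) + η := add_le_add a4 a2
  have hlim : Tendsto (fun η : ℝ => Real.sqrt (K * η) + η) (𝓝[>] 0) (𝓝 0) := by
    have : Continuous (fun η : ℝ => Real.sqrt (K * η) + η) := by fun_prop
    have h2 := this.tendsto 0
    simp only [mul_zero, Real.sqrt_zero, add_zero] at h2
    exact h2.mono_left nhdsWithin_le_nhds
  have hle : P.real ((· + h) ⁻¹' S) ≤ 0 :=
    ge_of_tendsto hlim (eventually_mem_nhdsWithin.mono fun η hη => key η hη)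
  exact (measureReal_eq_zero_iff (measure_ne_top _ _)).1 (le_antisymm hle measureReal_nonneg)

lemma shift_coord (n : ℕ) (e : F n) (S : Set (Π n, F n)) (hS : MeasurableSet S) :
    Measure.infinitePi μ ((· + Pi.single n e) ⁻¹' S) =
      ∑ y, μ n {y - e} * Measure.infinitePi μ ((fun x => Function.update x n y) ⁻¹' S) := by
  rw [split_coord μ n _ (measurable_add_const _ hS)]
  refine Finset.sum_bijective (· + e) (Equiv.addRight _).bijective (by simp) ?_
  intro y _
  simp only [add_sub_cancel_right]
  congr 2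
  ext x
  simp only [mem_preimage]
  have : Function.update x n y + Pi.single n e = Function.update x n (y + e) := by
    funext i
    by_cases hi : i = n
    · subst hi; simp
    · simp [Function.update_of_ne hi, Pi.single_eq_of_ne hi]
  rw [this]

theorem no_invariant_measure (e : Π n, F n) (B : Π n, Set (F n))
    (he : ∀ n, e n + e n = 0) (hB : ∀ n y, y + e n ∈ B n ↔ y ∉ B n)
    (hw : ∀ n y, y ∈ B n → μ n {y - e n} = 2 * μ n {y})
    (hw2 : ∀ n y, μ n {y - e n} ≤ 2 * μ n {y})
    (ν : Measure (Π n, F n)) [SigmaFinite ν] (hac : ν ≪ Measure.infinitePi μ)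
    (hinv : ∀ n S, MeasurableSet S → ν ((· + Pi.single n (e n)) ⁻¹' S) = ν S) : ν = 0 := by
  set P := Measure.infinitePi μ with hP
  have mt : ∀ n, Measurable (fun x : Π n, F n => x + Pi.single n (e n)) :=
    fun n => measurable_add_const _
  have hle : ∀ n S, MeasurableSet S → P ((· + Pi.single n (e n)) ⁻¹' S) ≤ 2 * P S := by
    intro n S hS
    rw [hP, shift_coord μ n _ S hS, split_coord μ n S hS, Finset.mul_sum]
    refine Finset.sum_le_sum fun y _ => ?_
    rw [← mul_assoc]
    exact mul_le_mul_left (hw2 n y) _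
  have heq : ∀ n S, MeasurableSet S → (∀ x ∈ S, x n ∈ B n) →
      P ((· + Pi.single n (e n)) ⁻¹' S) = 2 * P S := by
    intro n S hS hSB
    rw [hP, shift_coord μ n _ S hS, split_coord μ n S hS, Finset.mul_sum]
    refine Finset.sum_congr rfl fun y _ => ?_
    by_cases hy : y ∈ B n
    · rw [← mul_assoc, hw n y hy]
    · have : (fun x => Function.update x n y) ⁻¹' S = ∅ :=
        eq_empty_of_forall_notMem fun x hx => hy (by simpa using hSB _ hx)
      simp [this]
  set ρ := ν.rnDeriv P with hρ
  have hρm : Measurable ρ := Measure.measurable_rnDeriv ν P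
  have hνρ : ∀ S, MeasurableSet S → ν S = ∫⁻ x in S, ρ x ∂P := by
    intro S hS
    rw [← withDensity_apply _ hS, Measure.withDensity_rnDeriv_eq ν P hac]
  set y : ℝ≥0∞ := 3 / 2 with hy
  have hy1 : 1 < y := by
    rw [hy, ENNReal.lt_div_iff_mul_lt (by simp) (by simp)]; norm_num
  have hy2 : y < 2 := by
    rw [hy, ENNReal.div_lt_iff (by simp) (by simp)]; norm_num
  have hyt : y ≠ ∞ := (hy2.trans (by simp)).ne
  have hy0 : y ≠ 0 := (zero_lt_one.trans hy1).ne'
  have hAk : ∀ k : ℤ, P (ρ ⁻¹' Ico (y ^ k) (y ^ (k + 1))) = 0 := by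
    intro k
    set A := ρ ⁻¹' Ico (y ^ k) (y ^ (k + 1)) with hA
    have hAm : MeasurableSet A := hρm measurableSet_Ico
    have ha0 : y ^ k ≠ 0 := (ENNReal.zpow_pos hy0 hyt k).ne'
    have hat : y ^ k ≠ ∞ := ENNReal.zpow_ne_top hy0 hyt k
    have hlow : ∀ S, MeasurableSet S → S ⊆ A → y ^ k * P S ≤ ν S := by
      intro S hS hSA
      rw [hνρ S hS, ← setLIntegral_const]
      exact setLIntegral_mono' hS fun x hx => (hSA hx).1
    have hup : ∀ S, MeasurableSet S → S ⊆ A → ν S ≤ y ^ k * y * P S := by
      intro S hS hSA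
      rw [hνρ S hS, ← setLIntegral_const]
      refine setLIntegral_mono' hS fun x hx => ?_
      have := (hSA hx).2.le
      rwa [ENNReal.zpow_add hy0 hyt, zpow_one] at this
    have hBn : ∀ n, P (A ∩ (· + Pi.single n (e n)) ⁻¹' A) = 0 := by
      intro n
      set T : (Π n, F n) → (Π n, F n) := (· + Pi.single n (e n)) with hT
      have hTT : ∀ x, T (T x) = x := by
        intro x
        simp only [hT, add_assoc, ← Pi.single_add, he, Pi.single_zero, add_zero]
      set B1 := A ∩ T ⁻¹' A ∩ {x | x n ∈ B n} with hB1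
      have hB1m : MeasurableSet B1 := (hAm.inter (mt n hAm)).inter
        (measurable_pi_apply n (MeasurableSet.of_discrete (s := B n)))
      have h1 : P (T ⁻¹' B1) = 2 * P B1 := heq n B1 hB1m fun x hx => hx.2
      have h2 : y ^ k * P (T ⁻¹' B1) ≤ ν (T ⁻¹' B1) := hlow _ (mt n hB1m) fun x hx => by
        have := hx.1.2
        rwa [mem_preimage, hTT] at this
      have h3 : ν B1 ≤ y ^ k * y * P B1 := hup _ hB1m fun x hx => hx.1.1
      rw [hinv n B1 hB1m, h1] at h2
      have h4 : y ^ k * (2 * P B1) ≤ y ^ k * (y * P B1) := by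
        rw [← mul_assoc (y ^ k) y]; exact h2.trans h3
      have h5 : 2 * P B1 ≤ y * P B1 := (ENNReal.mul_le_mul_iff_right ha0 hat).1 h4
      have h6 : P B1 = 0 := by
        by_contra hne
        exact absurd ((ENNReal.mul_le_mul_iff_left hne (measure_ne_top _ _)).1 h5) (not_le.2 hy2)
      refine measure_mono_null (t := B1 ∪ T ⁻¹' B1) (fun x hx => ?_)
        (measure_union_null h6 (by rw [h1, h6, mul_zero]))
      by_cases hx' : x n ∈ B n
      · exact Or.inl ⟨hx, hx'⟩
      · refine Or.inr ⟨⟨hx.2, by rw [mem_preimage, hTT]; exact hx.1⟩, ?_⟩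
        have : T x n = x n + e n := by simp [hT]
        rw [mem_ofPred_eq, this, hB]
        exact hx'
    have hD := Measure.MeasureDense.of_generateFrom_isSetAlgebra_finite P
      isSetAlgebra_measurableCylinders generateFrom_measurableCylinders.symm
    refine le_antisymm (ENNReal.le_of_forall_pos_le_add fun ε hε _ => ?_) zero_le
    obtain ⟨C, hC, hlt⟩ := hD.approx A hAm (measure_ne_top _ _) (ε / 3) (by positivity)
    have hCm : MeasurableSet C := MeasurableSet.of_mem_measurableCylinders hC
    obtain ⟨I, S, -, rfl⟩ := (mem_measurableCylinders C).1 hC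
    obtain ⟨n, hn⟩ := Infinite.exists_notMem_finset I
    have hTC : ∀ x, x ∈ cylinder I S → x + Pi.single n (e n) ∈ cylinder I S := by
      intro x hx
      have : I.restrict (x + Pi.single n (e n)) = I.restrict x := by
        funext i
        have hi : (i : ℕ) ≠ n := fun h => hn (h ▸ i.2)
        simp [Finset.restrict, Pi.single_eq_of_ne hi]
      rw [mem_cylinder, this]
      exact hx
    calc P A ≤ P ((A ∩ (· + Pi.single n (e n)) ⁻¹' A) ∪ (A ∆ cylinder I S ∪
          (· + Pi.single n (e n)) ⁻¹' (A ∆ cylinder I S))) := by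
          refine measure_mono fun x hx => ?_
          by_cases h1 : x + Pi.single n (e n) ∈ A
          · exact Or.inl ⟨hx, h1⟩
          · by_cases h2 : x ∈ cylinder I S
            · exact Or.inr (Or.inr (Or.inr ⟨hTC x h2, h1⟩))
            · exact Or.inr (Or.inl (Or.inl ⟨hx, h2⟩))
      _ ≤ 0 + (P (A ∆ cylinder I S) + 2 * P (A ∆ cylinder I S)) :=
          (measure_union_le _ _).trans (add_le_add (hBn n).le ((measure_union_le _ _).trans
            (add_le_add le_rfl (hle n _ (hAm.symmDiff hCm)))))
      _ = 3 * P (A ∆ cylinder I S) := by ring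
      _ ≤ 3 * ENNReal.ofReal (ε / 3) := mul_le_mul_right hlt.le _
      _ = 0 + ε := by
          rw [zero_add, ← ENNReal.ofReal_ofNat 3, ← ENNReal.ofReal_mul (by norm_num),
            mul_div_cancel₀ _ (by norm_num), ENNReal.ofReal_coe_nnreal]
  have hae : ∀ᵐ x ∂P, ρ x = 0 := by
    have h1 : ∀ᵐ x ∂P, ∀ k : ℤ, x ∉ ρ ⁻¹' Ico (y ^ k) (y ^ (k + 1)) :=
      ae_all_iff.2 fun k => measure_eq_zero_iff_ae_notMem.1 (hAk k)
    filter_upwards [h1, Measure.rnDeriv_lt_top ν P] with x hx hx'
    by_contra hne
    obtain ⟨k, hk⟩ := ENNReal.exists_mem_Ico_zpow hne hx'.ne hy1 hyt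
    exact hx k hk
  ext S hS
  rw [hνρ S hS, Measure.coe_zero, Pi.zero_apply, lintegral_eq_zero_iff hρm]
  exact ae_restrict_of_ae hae

end

end Pool.Agent.MP_9152e2_an
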