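import Pool.Agent.MP_9152e2_an.Defs

/-! The action of a quotient H / D on a Borel transversal for D. -/

set_option autoImplicit false
set_option linter.style.haveILetI false
set_option linter.unusedSectionVars false

open MeasureTheory Set Filter Topology
open scoped ENNReal

namespace Pool.Agent.MP_9152e2_an

noncomputable section

/-- a group H acting on E by translations, a countable closed subgroup D and a transversal X -/
structure Setup (H E : Type) [NormedAddCommGroup H] [MeasurableSpace H] [AddCommGroup E]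
    [MeasurableSpace E] where
  j : H →+ E
  D : AddSubgroup H
  X : Set E
  hj : Measurable j
  hD : (D : Set H).Countable
  hDc : IsClosed (D : Set H)
  hX : MeasurableSet X
  ex : ∀ x ∈ X, ∀ h : H, ∃ d ∈ D, x + j (h + d) ∈ X
  uniq : ∀ x ∈ X, ∀ d ∈ D, x + j d ∈ X → d = 0

namespace Setup

variable {H E : Type} [NormedAddCommGroup H] [MeasurableSpace H] [AddCommGroup E]
  [MeasurableSpace E] (S : Setup H E)

/-- the action of H on the transversal -/
def act (h : H) (x : S.X) : S.X :=
  ⟨x + S.j (h + (S.ex x x.2 h).choose), (S.ex x x.2 h).choose_spec.2⟩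

lemma act_spec (h : H) (x : S.X) : ∃ d ∈ S.D, (S.act h x : E) = x + S.j (h + d) :=
  ⟨_, (S.ex x x.2 h).choose_spec.1, rfl⟩

lemma uniq' {y : E} {a b : H} (ha : y + S.j a ∈ S.X) (hb : y + S.j b ∈ S.X)
    (hab : b - a ∈ S.D) : a = b := by
  have := S.uniq _ ha _ hab (by rwa [add_assoc, ← map_add, add_sub_cancel])
  exact (sub_eq_zero.1 this).symm

lemma act_eq (h : H) (x : S.X) {g : H} (hg : g - h ∈ S.D) (hx : (x : E) + S.j g ∈ S.X) :
    (S.act h x : E) = x + S.j g := by
  obtain ⟨d, hd, e⟩ := S.act_spec h x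
  have h1 : (x : E) + S.j (h + d) ∈ S.X := e ▸ (S.act h x).2
  rw [e, S.uniq' h1 hx (by rw [← sub_sub]; exact S.D.sub_mem hg hd)]

lemma act_congr {h h' : H} (hh : h' - h ∈ S.D) (x : S.X) : S.act h x = S.act h' x := by
  obtain ⟨d, hd, e⟩ := S.act_spec h' x
  apply Subtype.ext
  rw [e]
  refine S.act_eq h x ?_ (e ▸ (S.act h' x).2)
  rw [add_sub_right_comm]
  exact S.D.add_mem hh hd

lemma act_zero (x : S.X) : S.act 0 x = x := by
  apply Subtype.ext
  rw [S.act_eq 0 x (g := 0) (by simp) (by simp)]
  simp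

lemma act_add (h h' : H) (x : S.X) : S.act (h + h') x = S.act h (S.act h' x) := by
  obtain ⟨d, hd, e⟩ := S.act_spec h (S.act h' x)
  obtain ⟨d', hd', e'⟩ := S.act_spec h' x
  apply Subtype.ext
  have e2 : (S.act h (S.act h' x) : E) = x + S.j (h' + d' + (h + d)) := by
    rw [e, e', add_assoc, ← map_add]
  rw [e2]
  refine S.act_eq _ x ?_ (e2 ▸ (S.act h (S.act h' x)).2)
  rw [show h' + d' + (h + d) - (h + h') = d' + d by abel]
  exact S.D.add_mem hd' hd

/-- the quotient group, written multiplicatively -/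
def Grp : Type := Multiplicative (H ⧸ S.D)

instance : NormedCommGroup S.Grp :=
  haveI := S.hDc
  inferInstanceAs (NormedCommGroup (Multiplicative (H ⧸ S.D)))

instance : MeasurableSpace S.Grp := borel _
instance : BorelSpace S.Grp := ⟨rfl⟩

instance [SecondCountableTopology H] : SecondCountableTopology S.Grp :=
  inferInstanceAs (SecondCountableTopology (H ⧸ S.D))

instance [CompleteSpace H] : CompleteSpace S.Grp :=
  haveI := S.hDc
  inferInstanceAs (CompleteSpace (H ⧸ S.D))

/-- the quotient map -/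
def qk (h : H) : S.Grp := Multiplicative.ofAdd (QuotientAddGroup.mk h : H ⧸ S.D)

lemma mk_add (h h' : H) : S.qk (h + h') = S.qk h * S.qk h' := rfl
lemma mk_zero : S.qk 0 = 1 := rfl
lemma mk_surj : Function.Surjective S.qk := fun g =>
  QuotientAddGroup.mk_surjective (Multiplicative.toAdd g)
lemma mk_cont : Continuous S.qk := QuotientAddGroup.continuous_mk
lemma mk_eq {h h' : H} : S.qk h = S.qk h' ↔ h' - h ∈ S.D := by
  rw [sub_eq_neg_add]
  exact QuotientAddGroup.eq
lemma dist_mk_le (h h' : H) : dist (S.qk h) (S.qk h') ≤ ‖h - h'‖ := by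
  haveI := S.hDc
  change dist (QuotientAddGroup.mk h : H ⧸ S.D) (QuotientAddGroup.mk h') ≤ _
  rw [dist_eq_norm, ← QuotientAddGroup.mk_sub]
  exact QuotientAddGroup.norm_mk_le_norm

instance : SMul S.Grp S.X := ⟨fun g x => S.act (S.mk_surj g).choose x⟩

lemma mk_smul (h : H) (x : S.X) : S.qk h • x = S.act h x :=
  S.act_congr (S.mk_eq.1 (S.mk_surj (S.qk h)).choose_spec) x

instance : MulAction S.Grp S.X where
  one_smul x := by rw [← S.mk_zero, mk_smul, act_zero]
  mul_smul g g' x := by
    obtain ⟨h, rfl⟩ := S.mk_surj g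
    obtain ⟨h', rfl⟩ := S.mk_surj g'
    rw [← mk_add, mk_smul, mk_smul, mk_smul, act_add]

lemma emb : MeasurableEmbedding (Subtype.val : S.X → E) := MeasurableEmbedding.subtype_coe S.hX

lemma image_act (h : H) (T : Set S.X) :
    Subtype.val '' (S.act h ⁻¹' T) =
      ⋃ d : S.D, S.X ∩ (· + S.j (h + d)) ⁻¹' (Subtype.val '' T) := by
  ext y
  simp only [mem_image, mem_preimage, mem_iUnion, mem_inter_iff]
  constructor
  · rintro ⟨x, hx, rfl⟩
    obtain ⟨d, hd, e⟩ := S.act_spec h x
    exact ⟨⟨d, hd⟩, x.2, _, hx, e⟩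
  · rintro ⟨d, hy, z, hz, e⟩
    refine ⟨⟨y, hy⟩, ?_, rfl⟩
    have : S.act h ⟨y, hy⟩ = z := by
      apply Subtype.ext
      rw [e]
      exact S.act_eq h ⟨y, hy⟩ (by simp) (e ▸ z.2)
    rwa [this]

variable [MeasurableAdd₂ E]

lemma measurable_act₂ [BorelSpace H] [SecondCountableTopology H] :
    Measurable (fun p : H × S.X => S.act p.1 p.2) := by
  intro T hT
  have : (fun p : H × S.X => S.act p.1 p.2) ⁻¹' T =
      ⋃ d : S.D, (fun p : H × S.X => (p.2 : E) + S.j (p.1 + d)) ⁻¹' (Subtype.val '' T) := by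
    ext p
    have := Set.ext_iff.1 (S.image_act p.1 T) p.2
    simp only [mem_image, mem_preimage, mem_iUnion, mem_inter_iff, Subtype.val_inj,
      exists_eq_right, Subtype.coe_prop, true_and] at this ⊢
    exact this
  rw [this]
  haveI : Countable S.D := S.hD
  refine MeasurableSet.iUnion fun d => ?_
  have hm : Measurable (fun p : H × S.X => (p.2 : E) + S.j (p.1 + d)) :=
    (measurable_subtype_coe.comp measurable_snd).add
      (S.hj.comp (measurable_fst.add_const _))
  exact hm (S.emb.measurableSet_image.2 hT)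

lemma measurable_act (h : H) : Measurable (S.act h) := by
  intro T hT
  rw [← S.emb.measurableSet_image, image_act]
  haveI : Countable S.D := S.hD
  exact MeasurableSet.iUnion fun d =>
    S.hX.inter (measurable_add_const _ (S.emb.measurableSet_image.2 hT))

lemma measurable_smul₂ [BorelSpace H] [SecondCountableTopology H] [CompleteSpace H]
    [StandardBorelSpace E] : Measurable (fun p : S.Grp × S.X => p.1 • p.2) := by
  haveI : StandardBorelSpace S.X := S.hX.standardBorel
  have hq : Measurable (Prod.map S.qk (id : S.X → S.X)) :=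
    S.mk_cont.measurable.prodMap measurable_id
  rw [← hq.measurable_comp_iff_of_surjective (S.mk_surj.prodMap Function.surjective_id)]
  convert S.measurable_act₂ using 1
  funext p
  exact S.mk_smul p.1 p.2

/-- the restricted measure -/
def res (ν : Measure E) : Measure S.X := ν.comap Subtype.val

omit [MeasurableAdd₂ E] in
lemma res_apply (ν : Measure E) (T : Set S.X) : S.res ν T = ν (Subtype.val '' T) :=
  S.emb.comap_apply ν T

omit [MeasurableAdd₂ E] in
lemma map_res (ν : Measure E) : (S.res ν).map Subtype.val = ν.restrict S.X := by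
  rw [res, S.emb.map_comap, Subtype.range_coe]

omit [MeasurableAdd₂ E] in
lemma sigmaFinite_res (ν : Measure E) [SigmaFinite ν] : SigmaFinite (S.res ν) :=
  SigmaFinite.of_map _ measurable_subtype_coe.aemeasurable (by rw [map_res]; infer_instance)

lemma res_quasi (ν : Measure E)
    (hν : ∀ h T, MeasurableSet T → ν T = 0 → ν ((· + S.j h) ⁻¹' T) = 0) (g : S.Grp) :
    (S.res ν).map (fun x => g • x) ≪ S.res ν ∧ S.res ν ≪ (S.res ν).map (fun x => g • x) := by
  haveI : Countable S.D := S.hD
  have key : ∀ h T, MeasurableSet T → S.res ν T = 0 → S.res ν (S.act h ⁻¹' T) = 0 := by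
    intro h T hT h0
    rw [res_apply] at h0 ⊢
    rw [image_act]
    exact measure_iUnion_null fun d => measure_mono_null inter_subset_right
      (hν _ _ (S.emb.measurableSet_image.2 hT) h0)
  obtain ⟨h, rfl⟩ := S.mk_surj g
  have e : (fun x => S.qk h • x) = S.act h := funext (S.mk_smul h)
  rw [e]
  constructor
  · refine Measure.AbsolutelyContinuous.mk fun T hT h0 => ?_
    rw [Measure.map_apply (S.measurable_act h) hT]
    exact key h T hT h0
  · refine Measure.AbsolutelyContinuous.mk fun T hT h0 => ?_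
    rw [Measure.map_apply (S.measurable_act h) hT] at h0
    have := key (-h) _ (S.measurable_act h hT) h0
    convert this using 2
    ext x
    rw [mem_preimage, mem_preimage, ← act_add, add_neg_cancel, act_zero]

lemma res_invariant (ν : Measure E) (hν : ∀ h, ν.map (· + S.j h) = ν) (g : S.Grp) :
    (S.res ν).map (fun x => g • x) = S.res ν := by
  haveI : Countable S.D := S.hD
  obtain ⟨h, rfl⟩ := S.mk_surj g
  have e : (fun x => S.qk h • x) = S.act h := funext (S.mk_smul h)
  rw [e]
  ext T hT
  have hT' := S.emb.measurableSet_image.2 hT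
  rw [Measure.map_apply (S.measurable_act h) hT, res_apply, res_apply, image_act,
    measure_iUnion _ fun d => S.hX.inter (measurable_add_const _ hT')]
  · have e2 : ∀ d : S.D, ν (S.X ∩ (· + S.j (h + d)) ⁻¹' (Subtype.val '' T)) =
        ν (Subtype.val '' T ∩ (· + S.j (-(h + d))) ⁻¹' S.X) := by
      intro d
      conv_rhs => rw [← hν (h + d),
        Measure.map_apply (measurable_add_const _) (hT'.inter (measurable_add_const _ S.hX))]
      congr 1
      ext y
      simp only [mem_inter_iff, mem_preimage, add_assoc, ← map_add, add_neg_cancel, map_zero,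
        add_zero, and_comm]
    simp_rw [e2]
    rw [← measure_iUnion _ fun d => hT'.inter (measurable_add_const _ S.hX), ← inter_iUnion,
      inter_eq_self_of_subset_left]
    · rintro _ ⟨x, -, rfl⟩
      obtain ⟨d, hd, hx⟩ := S.ex x x.2 (-h)
      refine mem_iUnion.2 ⟨⟨-d, S.D.neg_mem hd⟩, ?_⟩
      rw [mem_preimage, show -(h + -d) = -h + d by abel]
      exact hx
    · intro d d' hdd
      refine disjoint_left.2 fun y hy hy' => hdd ?_
      have := S.uniq' hy.2 hy'.2 (by
        rw [show -(h + (d' : H)) - -(h + d) = d - d' by abel]; exact S.D.sub_mem d.2 d'.2)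
      exact Subtype.ext (add_left_cancel (neg_injective this))
  · intro d d' hdd
    refine disjoint_left.2 fun y hy hy' => hdd ?_
    obtain ⟨z, -, hz⟩ := hy.2
    obtain ⟨z', -, hz'⟩ := hy'.2
    have hz : (z : E) = y + S.j (h + d) := hz
    have hz' : (z' : E) = y + S.j (h + d') := hz'
    have := S.uniq' (y := y) (a := h + d) (b := h + d') (hz ▸ z.2) (hz' ▸ z'.2) (by
      rw [add_sub_add_left_eq_sub]; exact S.D.sub_mem d'.2 d.2)
    exact Subtype.ext (add_left_cancel this)

lemma res_ergodic (ν : Measure E)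
    (hν : ∀ T, MeasurableSet T → (∀ h y, y + S.j h ∈ T ↔ y ∈ T) → ν T = 0 ∨ ν Tᶜ = 0)
    (T : Set S.X) (hT : MeasurableSet T) (hinv : ∀ g : S.Grp, (fun x => g • x) ⁻¹' T = T) :
    S.res ν T = 0 ∨ S.res ν Tᶜ = 0 := by
  haveI : Countable S.D := S.hD
  have hT' := S.emb.measurableSet_image.2 hT
  set T' : Set E := ⋃ d : S.D, (· + S.j d) ⁻¹' (Subtype.val '' T) with hT'def
  have step : ∀ h y, y ∈ T' → y + S.j h ∈ T' := by
    intro h y hy
    obtain ⟨d, x, hx, e⟩ := mem_iUnion.1 hy
    obtain ⟨d', hd', e'⟩ := S.act_spec h x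
    have hx' : S.act h x ∈ T := by
      rw [← hinv (S.qk h), mem_preimage, mk_smul] at hx
      exact hx
    refine mem_iUnion.2 ⟨⟨d + d', S.D.add_mem d.2 hd'⟩, _, hx', ?_⟩
    rw [e', e]
    simp only [map_add]
    abel
  rcases hν T' (MeasurableSet.iUnion fun d => measurable_add_const _ hT') (fun h y =>
    ⟨fun hy => by simpa using step (-h) _ hy, step h y⟩) with h0 | h0
  · left
    rw [res_apply]
    refine measure_mono_null (fun y hy => mem_iUnion.2 ⟨0, ?_⟩) h0
    simpa using hy
  · right
    rw [res_apply]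
    refine measure_mono_null ?_ h0
    rintro _ ⟨x, hx, rfl⟩ hy
    obtain ⟨d, z, hz, e⟩ := mem_iUnion.1 hy
    have e : (z : E) = x + S.j d := e
    have hd := S.uniq x x.2 d d.2 (e ▸ z.2)
    apply hx
    have : z = x := Subtype.ext (by rw [e, hd]; simp)
    rwa [← this]

lemma pos_of_quasi (ν : Measure E)
    (hν : ∀ h T, MeasurableSet T → ν T = 0 → ν ((· + S.j h) ⁻¹' T) = 0)
    (T : Set E) (hT : ∀ y ∈ T, ∃ d ∈ S.D, y + S.j d ∈ S.X) (h0 : ν T ≠ 0) : ν S.X ≠ 0 := by
  haveI : Countable S.D := S.hD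
  intro hX
  apply h0
  refine measure_mono_null (t := ⋃ d : S.D, (· + S.j d) ⁻¹' S.X) (fun y hy => ?_)
    (measure_iUnion_null fun d => hν _ _ S.hX hX)
  obtain ⟨d, hd, e⟩ := hT y hy
  exact mem_iUnion.2 ⟨⟨d, hd⟩, e⟩

end Setup

end

end Pool.Agent.MP_9152e2_an
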