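import Pool.Agent.MP_9152e2_an.Cube
import Pool.Agent.MP_9152e2_an.Quot

/-! The concrete groups H and D and the transversal. -/

set_option autoImplicit false
set_option linter.style.haveILetI false

open MeasureTheory Set Filter Topology
open scoped ENNReal

namespace Pool.Agent.MP_9152e2_an

noncomputable section

/-- number of parents at level n -/
def pp : ℕ → ℕ
  | 0 => 1
  | n + 1 => pp n * (2 * (2 ^ n * pp n) + 3) ^ 3 +
      ((2 * (2 ^ n * pp n) + 3 + 2) * (pp n * (2 * (2 ^ n * pp n) + 3) ^ 3) + 1)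

/-- inverse bias at level n -/
def ss (n : ℕ) : ℕ := 2 * (2 ^ n * pp n) + 3
/-- number of children of a parent at level n -/
def mm (n : ℕ) : ℕ := ss n ^ 3
/-- number of auxiliary heavy bits at level n -/
def jj (n : ℕ) : ℕ := (ss n + 2) * (pp n * mm n)

lemma pp_succ (n : ℕ) : pp (n + 1) = pp n * mm n + (jj n + 1) := rfl
lemma pp_pos (n : ℕ) : 1 ≤ pp n := by
  cases n with
  | zero => exact le_rfl
  | succ n => rw [pp_succ]; omega
lemma ss_ge (n : ℕ) : 3 ≤ ss n := by unfold ss; omega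
lemma ss_odd (n : ℕ) : Odd (ss n) := ⟨2 ^ n * pp n + 1, by unfold ss; ring⟩
lemma mm_odd (n : ℕ) : Odd (mm n) := (ss_odd n).pow
lemma mm_eq (n : ℕ) : mm n = ss n ^ 3 := rfl
lemma jj_eq (n : ℕ) : jj n = (ss n + 2) * (pp n * mm n) := rfl
lemma ss_ge' (n : ℕ) : (3 : ℝ) ≤ ss n := by exact_mod_cast ss_ge n
lemma ss_pos (n : ℕ) : (0 : ℝ) < ss n := by linarith [ss_ge' n]
lemma pp_div_ss (n : ℕ) : (pp n : ℝ) / ss n ≤ (1 / 2) ^ n := by
  rw [div_le_iff₀ (ss_pos n)]
  have h : (ss n : ℝ) = 2 * (2 ^ n * pp n) + 3 := by unfold ss; push_cast; ring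
  have h2 : (1 / 2 : ℝ) ^ n * 2 ^ n = 1 := by rw [← mul_pow]; norm_num
  have h3 : (0 : ℝ) ≤ (1 / 2) ^ n := by positivity
  have h4 : (0 : ℝ) ≤ pp n := Nat.cast_nonneg _
  rw [h]
  nlinarith

attribute [irreducible] pp ss mm jj

/-- parents at level n: the coordinates of the previous level -/
def P : ℕ → Type
  | 0 => Unit
  | n + 1 => (P n × Fin (mm n)) ⊕ Option (Fin (jj n))

instance fintypeP : ∀ n, Fintype (P n)
  | 0 => inferInstanceAs (Fintype Unit)
  | n + 1 =>
    letI := fintypeP n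
    inferInstanceAs (Fintype ((P n × Fin (mm n)) ⊕ Option (Fin (jj n))))

instance decEqP (n : ℕ) : DecidableEq (P n) := Classical.decEq _

/-- light coordinates -/
abbrev Lt (n : ℕ) : Type := P n × Fin (mm n)
/-- heavy coordinates -/
abbrev Hv (n : ℕ) : Type := Option (Fin (jj n))
/-- all coordinates at level n -/
abbrev C (n : ℕ) : Type := Lt n ⊕ Hv n

lemma card_P : ∀ n, Fintype.card (P n) = pp n
  | 0 => by unfold pp; rfl
  | n + 1 => by
    change Fintype.card (C n) = _
    rw [pp_succ, Fintype.card_sum, Fintype.card_prod, card_P n, Fintype.card_fin,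
      Fintype.card_option, Fintype.card_fin]

lemma card_Lt (n : ℕ) : Fintype.card (Lt n) = pp n * mm n := by
  rw [Fintype.card_prod, card_P, Fintype.card_fin]

/-- the group at level n -/
def F (n : ℕ) : Type := C n → ZMod 2

instance (n : ℕ) : AddCommGroup (F n) := inferInstanceAs (AddCommGroup (C n → ZMod 2))
instance (n : ℕ) : Fintype (F n) := inferInstanceAs (Fintype (C n → ZMod 2))
instance (n : ℕ) : DecidableEq (F n) := inferInstanceAs (DecidableEq (C n → ZMod 2))
instance (n : ℕ) : MeasurableSpace (F n) := ⊤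
instance (n : ℕ) : DiscreteMeasurableSpace (F n) := ⟨fun _ => trivial⟩

@[simp] lemma F_add {n : ℕ} (x y : F n) (i : C n) : (x + y) i = x i + y i := rfl
@[simp] lemma F_sub {n : ℕ} (x y : F n) (i : C n) : (x - y) i = x i - y i := rfl
@[simp] lemma F_neg {n : ℕ} (x : F n) (i : C n) : (-x) i = -x i := rfl
@[simp] lemma F_zero {n : ℕ} (i : C n) : (0 : F n) i = 0 := rfl
lemma F_ext {n : ℕ} {x y : F n} (h : ∀ i, x i = y i) : x = y := funext h
lemma F_add_self {n : ℕ} (x : F n) : x + x = 0 := F_ext fun i => zmod2_add_self (x i)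
lemma F_neg_eq {n : ℕ} (x : F n) : -x = x := neg_eq_of_add_eq_zero_left (F_add_self x)
lemma F_sub_eq {n : ℕ} (x y : F n) : x - y = x + y := by rw [sub_eq_add_neg, F_neg_eq]

/-- weight of light coordinates -/
def ww (n : ℕ) : ℝ := (1 / ss n) ^ 2
lemma ww_pos (n : ℕ) : 0 < ww n := by unfold ww; have := ss_pos n; positivity
lemma ww_mm (n : ℕ) : ww n * mm n = ss n := by
  have := ss_pos n
  rw [ww, mm_eq]; push_cast; field_simp

/-- weights -/
def Wt (n : ℕ) : C n → ℝ := Sum.elim (fun _ => ww n) (fun _ => 1)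
lemma Wt_pos (n : ℕ) (i : C n) : 0 < Wt n i := by
  rcases i with i | i
  · exact ww_pos n
  · exact zero_lt_one

/-- weighted Hamming weight -/
def qq (n : ℕ) (x : F n) : ℝ := ∑ i, Wt n i * ind (x i)

lemma qq_nonneg (n : ℕ) (x : F n) : 0 ≤ qq n x :=
  Finset.sum_nonneg fun i _ => mul_nonneg (Wt_pos n i).le (ind_nonneg _)

lemma qq_add (n : ℕ) (x y : F n) : qq n (x + y) ≤ qq n x + qq n y := by
  unfold qq
  rw [← Finset.sum_add_distrib]
  refine Finset.sum_le_sum fun i _ => ?_
  rw [← mul_add]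
  exact mul_le_mul_of_nonneg_left (ind_add_le _ _) (Wt_pos n i).le

lemma qq_eq (n : ℕ) (x : F n) :
    qq n x = ww n * ∑ l : Lt n, ind (x (Sum.inl l)) + ∑ t : Hv n, ind (x (Sum.inr t)) := by
  unfold qq
  rw [Fintype.sum_sum_type, Finset.mul_sum]
  simp [Wt]

instance (n : ℕ) : NormedAddCommGroup (F n) :=
  AddGroupNorm.toNormedAddCommGroup
    { toFun := fun x => Real.sqrt (qq n x)
      map_zero' := by simp [qq]
      add_le' := fun x y => by
        have hx := qq_nonneg n x
        have hy := qq_nonneg n y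
        rw [Real.sqrt_le_iff]
        refine ⟨by positivity, (qq_add n x y).trans ?_⟩
        nlinarith [Real.sq_sqrt hx, Real.sq_sqrt hy, Real.sqrt_nonneg (qq n x),
          Real.sqrt_nonneg (qq n y)]
      neg' := fun x => by rw [F_neg_eq]
      eq_zero_of_map_eq_zero' := fun x hx => by
        have h0 : qq n x = 0 := (Real.sqrt_eq_zero (qq_nonneg n x)).1 hx
        unfold qq at h0
        rw [Finset.sum_eq_zero_iff_of_nonneg
          fun i _ => mul_nonneg (Wt_pos n i).le (ind_nonneg _)] at h0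
        refine F_ext fun i => ind_eq_zero ?_
        exact (mul_eq_zero.1 (h0 i (Finset.mem_univ i))).resolve_left (Wt_pos n i).ne' }

lemma F_norm (n : ℕ) (x : F n) : ‖x‖ = Real.sqrt (qq n x) := rfl
lemma qq_eq_sq (n : ℕ) (x : F n) : qq n x = ‖x‖ ^ 2 := by
  rw [F_norm, Real.sq_sqrt (qq_nonneg n x)]

instance (n : ℕ) : BorelSpace (F n) := ⟨borel_eq_top_of_discrete.symm⟩

/-- the space -/
abbrev EE : Type := Π n, F n
/-- the group of summable sequences -/
abbrev HH : Type := lp F 1

instance : MeasurableSpace HH := borel _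
instance : BorelSpace HH := ⟨rfl⟩

/-- inclusion -/
def jH : HH →+ EE := lp.coeFnAddMonoidHom F 1

lemma jH_apply (h : HH) (n : ℕ) : jH h n = h n := rfl
lemma jH_inj : Function.Injective jH := fun _ _ h => lp.ext h

lemma jH_meas : Measurable jH :=
  measurable_pi_lambda _ fun n => (lp.lipschitzWith_one_eval 1 n).continuous.measurable

lemma HH_summable (h : HH) : Summable fun n => ‖jH h n‖ := by
  simpa [jH_apply] using (lp.memℓp h).summable (by simp)

lemma HH_tendsto (h : HH) : Tendsto (fun n => qq n (jH h n)) atTop (𝓝 0) := by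
  simp_rw [qq_eq_sq]
  simpa using (HH_summable h).tendsto_atTop_zero.pow 2

/-- finite support -/
def FS {G : ℕ → Type} [∀ n, Zero (G n)] (x : Π n, G n) : Prop := ∃ N, ∀ n ≥ N, x n = 0

lemma FS.add {G : ℕ → Type} [∀ n, AddCommGroup (G n)] {x y : Π n, G n} (hx : FS x) (hy : FS y) :
    FS (x + y) := by
  obtain ⟨N, hN⟩ := hx
  obtain ⟨M, hM⟩ := hy
  exact ⟨max N M, fun n hn => by
    rw [Pi.add_apply, hN n (le_of_max_le_left hn), hM n (le_of_max_le_right hn), add_zero]⟩

lemma FS.neg {G : ℕ → Type} [∀ n, AddCommGroup (G n)] {x : Π n, G n} (hx : FS x) : FS (-x) := by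
  obtain ⟨N, hN⟩ := hx
  exact ⟨N, fun n hn => by rw [Pi.neg_apply, hN n hn, neg_zero]⟩

lemma FS.zero {G : ℕ → Type} [∀ n, AddCommGroup (G n)] : FS (0 : Π n, G n) := ⟨0, fun _ _ => rfl⟩

lemma FS.single {G : ℕ → Type} [∀ n, AddCommGroup (G n)] (n : ℕ) (a : G n) :
    FS (Pi.single n a : Π n, G n) :=
  ⟨n + 1, fun m hm => Pi.single_eq_of_ne (by omega) a⟩

lemma countable_FS : {x : EE | FS x}.Countable := by
  have : {x : EE | FS x} = ⋃ N, {x : EE | ∀ n ≥ N, x n = 0} := by
    ext x; simp [FS]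
  rw [this]
  refine countable_iUnion fun N => Finite.countable ?_
  refine Finite.of_finite_image (f := (Finset.range N).restrict) (toFinite _) ?_
  intro x hx y hy hxy
  funext n
  by_cases hn : n < N
  · exact congrFun hxy ⟨n, Finset.mem_range.2 hn⟩
  · rw [hx n (not_lt.1 hn), hy n (not_lt.1 hn)]

/-- a finitely supported sequence as an element of H -/
def mkH (x : EE) (hx : FS x) : HH :=
  ⟨x, (memℓp_zero (by
    obtain ⟨N, hN⟩ := hx
    refine (Finset.range N).finite_toSet.subset fun n hn => ?_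
    by_contra h
    exact hn (hN n (by simpa using h)))).of_exponent_ge zero_le⟩

@[simp] lemma jH_mkH (x : EE) (hx : FS x) : jH (mkH x hx) = x := rfl

lemma dense_FS : Dense {h : HH | FS (jH h)} := by
  intro h
  refine mem_closure_of_tendsto (lp.hasSum_single (by simp) h) (Eventually.of_forall fun s => ?_)
  simp only [mem_ofPred_eq, map_sum]
  induction s using Finset.induction_on with
  | empty => exact FS.zero
  | insert a s ha ih =>
    rw [Finset.sum_insert ha]
    exact (FS.single a (h a)).add ih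

instance : TopologicalSpace.SeparableSpace HH :=
  ⟨⟨_, countable_FS.preimage_of_injOn jH_inj.injOn, dense_FS⟩⟩

instance : SecondCountableTopology HH := UniformSpace.secondCountable_of_separable HH

/-- a function on the parents of the next level, as an element of the level group -/
def up (n : ℕ) (u : P (n + 1) → ZMod 2) : F n := u
/-- copy the bit of every parent to all its children -/
def pull (n : ℕ) (u : P n → ZMod 2) : F n := Sum.elim (fun l => u l.1) (fun _ => 0)

@[simp] lemma up_zero (n : ℕ) : up n 0 = 0 := rfl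
lemma up_add (n : ℕ) (u v) : up n (u + v) = up n u + up n v := rfl
@[simp] lemma pull_inl (n : ℕ) (u) (l : Lt n) : pull n u (Sum.inl l) = u l.1 := rfl
@[simp] lemma pull_inr (n : ℕ) (u) (t : Hv n) : pull n u (Sum.inr t) = 0 := rfl
@[simp] lemma pull_zero (n : ℕ) : pull n 0 = 0 := F_ext fun i => by rcases i with i | i <;> rfl
lemma pull_add (n : ℕ) (u v) : pull n (u + v) = pull n u + pull n v :=
  F_ext fun i => by rcases i with i | i <;> simp

/-- boundary -/
def bd (v : Π n, P n → ZMod 2) : EE := fun n => up n (v (n + 1)) + pull n (v n)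

lemma bd_add (v v') : bd (v + v') = bd v + bd v' := by
  funext n
  simp only [bd, Pi.add_apply, up_add, pull_add]
  abel

lemma bd_FS {v : Π n, P n → ZMod 2} (hv : FS v) : FS (bd v) := by
  obtain ⟨N, hN⟩ := hv
  exact ⟨N, fun n hn => by simp [bd, hN n hn, hN (n + 1) (by omega)]⟩

/-- the countable subgroup -/
def DD : AddSubgroup HH where
  carrier := {h | ∃ v, FS v ∧ jH h = bd v}
  zero_mem' := ⟨0, FS.zero, by funext n; simp [bd]⟩
  add_mem' := by
    rintro a b ⟨v, hv, e⟩ ⟨v', hv', e'⟩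
    exact ⟨v + v', hv.add hv', by rw [map_add, e, e', bd_add]⟩
  neg_mem' := by
    rintro a ⟨v, hv, e⟩
    refine ⟨v, hv, ?_⟩
    rw [map_neg, e]
    funext n
    exact F_neg_eq _

lemma mkH_bd_mem {v : Π n, P n → ZMod 2} (hv : FS v) : mkH (bd v) (bd_FS hv) ∈ DD := ⟨v, hv, rfl⟩

lemma DD_countable : (DD : Set HH).Countable := by
  refine (countable_FS.preimage_of_injOn jH_inj.injOn).mono ?_
  rintro h ⟨v, hv, e⟩
  change FS (jH h)
  rw [e]
  exact bd_FS hv

lemma DD_top {d : HH} (hd : d ∈ DD) (h0 : d ≠ 0) :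
    ∃ n, ∃ p : P n, ∀ j, jH d n (Sum.inl (p, j)) = 1 := by
  obtain ⟨v, ⟨N, hN⟩, e⟩ := hd
  have hv : ∃ n, v n ≠ 0 := by
    by_contra hc
    push Not at hc
    apply h0
    apply jH_inj
    rw [e, map_zero]
    funext n
    simp [bd, hc]
  have hex : ∃ N, ∀ n ≥ N, v n = 0 := ⟨N, hN⟩
  classical
  have hpos : Nat.find hex ≠ 0 := by
    intro h
    obtain ⟨n, hn⟩ := hv
    exact hn (Nat.find_spec hex n (by omega))
  obtain ⟨n, hn⟩ := Nat.exists_eq_succ_of_ne_zero hpos
  have h1 : ∀ m ≥ n + 1, v m = 0 := by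
    have := Nat.find_spec hex
    rwa [hn] at this
  have h2 : v n ≠ 0 := by
    intro h
    refine Nat.find_min hex (m := n) (by omega) fun m hm => ?_
    rcases hm.eq_or_lt with rfl | hlt
    · exact h
    · exact h1 m hlt
  obtain ⟨p, hp⟩ := Function.ne_iff.1 h2
  refine ⟨n, p, fun j => ?_⟩
  rw [e]
  simp only [bd, h1 (n + 1) le_rfl, up_zero, zero_add, pull_inl]
  exact (zmod2_cases _).resolve_left hp

/-- number of ones among the children of p -/
def ones (n : ℕ) (x : F n) (p : P n) : ℝ := ∑ j : Fin (mm n), ind (x (Sum.inl (p, j)))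

lemma ones_nonneg (n : ℕ) (x : F n) (p : P n) : 0 ≤ ones n x p :=
  Finset.sum_nonneg fun _ _ => ind_nonneg _

lemma sum_ones_le (n : ℕ) (x : F n) : ∑ p, ww n * ones n x p ≤ qq n x := by
  rw [qq_eq, Fintype.sum_prod_type, ← Finset.mul_sum]
  exact le_add_of_nonneg_right (Finset.sum_nonneg fun _ _ => ind_nonneg _)

lemma ones_flip (n : ℕ) (x y : F n) (p : P n) (h : ∀ j, y (Sum.inl (p, j)) = 1) :
    ones n (x + y) p = mm n - ones n x p := by
  simp [ones, h, ind_add_one]

lemma ones_same (n : ℕ) (x y : F n) (p : P n) (h : ∀ j, y (Sum.inl (p, j)) = 0) :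
    ones n (x + y) p = ones n x p := by
  simp [ones, h]

lemma ones_ne (n : ℕ) (x : F n) (p : P n) : 2 * ones n x p ≠ mm n := by
  have : ∃ k : ℕ, ones n x p = k := by
    refine ⟨∑ j : Fin (mm n), if x (Sum.inl (p, j)) = 0 then 0 else 1, ?_⟩
    push_cast
    rfl
  obtain ⟨k, hk⟩ := this
  rw [hk]
  obtain ⟨r, hr⟩ := mm_odd n
  intro h
  have : 2 * k = mm n := by exact_mod_cast h
  omega

lemma ones_add (n : ℕ) (x y : F n) (p : P n) : |ones n (x + y) p - ones n x p| ≤ ones n y p := by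
  unfold ones
  rw [← Finset.sum_sub_distrib]
  exact (Finset.abs_sum_le_sum_abs _ _).trans (Finset.sum_le_sum fun j _ => abs_ind_add_sub _ _)

lemma DD_norm {d : HH} (hd : d ∈ DD) (h0 : d ≠ 0) : 1 ≤ ‖d‖ := by
  obtain ⟨n, p, hp⟩ := DD_top hd h0
  refine le_trans ?_ (lp.norm_apply_le_norm one_ne_zero d n)
  rw [F_norm]
  apply Real.le_sqrt_of_sq_le
  have h1 : ww n * ones n (jH d n) p ≤ qq n (jH d n) :=
    le_trans (Finset.single_le_sum (f := fun p => ww n * ones n (jH d n) p)
      (fun p _ => mul_nonneg (ww_pos n).le (ones_nonneg _ _ _)) (Finset.mem_univ p))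
      (sum_ones_le n _)
  have h2 : ones n (jH d n) p = mm n := by simp [ones, hp]
  rw [h2, ww_mm] at h1
  have := ss_ge' n
  rw [jH_apply] at h1
  linarith

lemma DD_closed : IsClosed (DD : Set HH) := by
  refine Metric.isClosed_of_pairwise_le_dist zero_lt_one fun a ha b hb hab => ?_
  change 1 ≤ dist a b
  rw [dist_eq_norm]
  exact DD_norm (DD.sub_mem ha hb) (sub_ne_zero.2 hab)

/-- every block has majority zero -/
def Canon (n : ℕ) (x : F n) : Prop := ∀ p, 2 * ones n x p < mm n

/-- normalised deviation from the mean -/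
def Sc (n : ℕ) (x : F n) : ℝ := ∑ p, (ww n * (ones n x p - mm n * (1 / 2 - 1 / ss n))) ^ 2

lemma Sc_nonneg (n : ℕ) (x : F n) : 0 ≤ Sc n x := Finset.sum_nonneg fun _ _ => sq_nonneg _

lemma canon_of_Sc {n : ℕ} {x : F n} (h : Sc n x < 1) : Canon n x := by
  intro p
  have h1 : (ww n * (ones n x p - mm n * (1 / 2 - 1 / ss n))) ^ 2 < 1 :=
    lt_of_le_of_lt (Finset.single_le_sum
      (f := fun p => (ww n * (ones n x p - mm n * (1 / 2 - 1 / ss n))) ^ 2)
      (fun _ _ => sq_nonneg _) (Finset.mem_univ p)) h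
  have h2 : ww n * (ones n x p - mm n * (1 / 2 - 1 / ss n)) < 1 := by nlinarith
  have h3 : ww n * (mm n * (1 / ss n)) = 1 := by
    rw [← mul_assoc, ww_mm]; field_simp [(ss_pos n).ne']
  have h4 : ww n * (2 * ones n x p) < ww n * mm n := by nlinarith
  exact lt_of_mul_lt_mul_left h4 (ww_pos n).le

lemma Sc_add (n : ℕ) (x y : F n) : Sc n (x + y) ≤ 2 * Sc n x + 2 * qq n y ^ 2 := by
  have h1 : ∑ p, (ww n * ones n y p) ^ 2 ≤ qq n y ^ 2 := by
    refine le_trans (Finset.sum_sq_le_sq_sum_of_nonneg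
      fun p _ => mul_nonneg (ww_pos n).le (ones_nonneg _ _ _)) ?_
    exact pow_le_pow_left₀ (Finset.sum_nonneg
      fun p _ => mul_nonneg (ww_pos n).le (ones_nonneg _ _ _)) (sum_ones_le n y) 2
  refine le_trans ?_ (add_le_add le_rfl (mul_le_mul_of_nonneg_left h1 zero_le_two))
  unfold Sc
  rw [Finset.mul_sum, Finset.mul_sum, ← Finset.sum_add_distrib]
  refine Finset.sum_le_sum fun p _ => ?_
  have h2 := ones_add n x y p
  have h3 : (ones n (x + y) p - ones n x p) ^ 2 ≤ ones n y p ^ 2 := by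
    rw [← sq_abs]; exact pow_le_pow_left₀ (abs_nonneg _) h2 2
  have h4 : (ones n (x + y) p - mm n * (1 / 2 - 1 / ss n)) ^ 2 ≤
      2 * (ones n x p - mm n * (1 / 2 - 1 / ss n)) ^ 2 + 2 * ones n y p ^ 2 := by
    nlinarith [sq_nonneg (ones n (x + y) p - ones n x p - (ones n x p - mm n * (1 / 2 - 1 / ss n)))]
  simp only [mul_pow]
  nlinarith [sq_nonneg (ww n)]

/-- the invariant set -/
def E0 : Set EE := {x | Tendsto (fun n => Sc n (x n)) atTop (𝓝 0)}

lemma E0_meas : MeasurableSet E0 :=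
  measurableSet_tendsto (𝓝 0) fun n =>
    (Measurable.of_discrete (f := Sc n)).comp (measurable_pi_apply n)

lemma E0_add {x : EE} (hx : x ∈ E0) (h : HH) : x + jH h ∈ E0 := by
  refine squeeze_zero (fun n => Sc_nonneg _ _) (fun n => Sc_add n (x n) (jH h n)) ?_
  simpa using (Tendsto.const_mul 2 hx).add (((HH_tendsto h).pow 2).const_mul 2)

lemma exists_canon : ∀ (N : ℕ) (x : EE), (∀ n ≥ N, Canon n (x n)) →
    ∃ d ∈ DD, ∀ n, Canon n ((x + jH d) n) := by
  intro N
  induction N with
  | zero => exact fun x hx => ⟨0, DD.zero_mem, fun n => by simpa using hx n (Nat.zero_le n)⟩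
  | succ N ih =>
    intro x hx
    classical
    let u : P N → ZMod 2 := fun p => if 2 * ones N (x N) p < mm N then 0 else 1
    let v : Π n, P n → ZMod 2 := Pi.single N u
    have hv : FS v := FS.single (G := fun n => P n → ZMod 2) N u
    obtain ⟨d, hd, h⟩ := ih (x + bd v) (fun n hn => by
      rcases hn.eq_or_lt with rfl | hlt
      · have e : bd v N = pull N u := by
          simp [bd, v]
        intro p
        rw [Pi.add_apply, e]
        by_cases hp : 2 * ones N (x N) p < mm N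
        · rw [ones_same _ _ _ _ (fun j => by simp [u, hp])]
          exact hp
        · rw [ones_flip _ _ _ _ (fun j => by simp [u, hp])]
          have := ones_ne N (x N) p
          have h3 : (mm N : ℝ) < 2 * ones N (x N) p := lt_of_le_of_ne (not_lt.1 hp) this.symm
          linarith
      · have e : bd v n = 0 := by
          have h1 : v n = 0 := Pi.single_eq_of_ne (M := fun n => P n → ZMod 2) (by omega : n ≠ N) u
          have h2 : v (n + 1) = 0 :=
            Pi.single_eq_of_ne (M := fun n => P n → ZMod 2) (by omega : n + 1 ≠ N) u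
          simp [bd, h1, h2]
        rw [Pi.add_apply, e, add_zero]
        exact hx n hlt)
    refine ⟨mkH (bd v) (bd_FS hv) + d, DD.add_mem (mkH_bd_mem hv) hd, fun n => ?_⟩
    rw [map_add, jH_mkH, ← add_assoc]
    exact h n

lemma E0_ex {x : EE} (hx : x ∈ E0) : ∃ d ∈ DD, x + jH d ∈ E0 ∩ {x | ∀ n, Canon n (x n)} := by
  have : ∀ᶠ n in atTop, Sc n (x n) < 1 := hx.eventually (gt_mem_nhds zero_lt_one)
  obtain ⟨N, hN⟩ := eventually_atTop.1 this
  obtain ⟨d, hd, h⟩ := exists_canon N x fun n hn => canon_of_Sc (hN n hn)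
  exact ⟨d, hd, E0_add hx d, h⟩

/-- the concrete setup -/
def SS : Setup HH EE where
  j := jH
  D := DD
  X := E0 ∩ {x | ∀ n, Canon n (x n)}
  hj := jH_meas
  hD := DD_countable
  hDc := DD_closed
  hX := by
    refine E0_meas.inter ?_
    rw [ofPred_forall]
    exact MeasurableSet.iInter fun n =>
      measurable_pi_apply n (MeasurableSet.of_discrete (s := {y | Canon n y}))
  ex x hx h := by
    obtain ⟨d, hd, e⟩ := E0_ex (E0_add hx.1 h)
    exact ⟨d, hd, by rwa [map_add, ← add_assoc]⟩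
  uniq x hx d hd hxd := by
    by_contra h0
    obtain ⟨n, p, hp⟩ := DD_top hd h0
    have h1 := hx.2 n p
    have h2 := hxd.2 n p
    rw [Pi.add_apply, ones_flip _ _ _ _ hp] at h2
    linarith

/-- the special heavy bit at level n -/
def eb (n : ℕ) : F n := Pi.single (Sum.inr none) 1

lemma eb_inl (n : ℕ) (l : Lt n) : eb n (Sum.inl l) = 0 := Pi.single_eq_of_ne (by simp) _
lemma eb_none (n : ℕ) : eb n (Sum.inr none) = 1 := Pi.single_eq_same _ _
lemma eb_some (n : ℕ) (t : Fin (jj n)) : eb n (Sum.inr (some t)) = 0 :=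
  Pi.single_eq_of_ne (by simp) _

lemma X_flip {x : EE} (hx : x ∈ SS.X) (n : ℕ) : x + Pi.single n (eb n) ∈ SS.X := by
  refine ⟨E0_add hx.1 (mkH _ (FS.single n (eb n))), fun m p => ?_⟩
  rw [Pi.add_apply, ones_same]
  · exact hx.2 m p
  · intro j
    by_cases hm : m = n
    · subst hm; rw [Pi.single_eq_same, eb_inl]
    · rw [Pi.single_eq_of_ne hm]; rfl

lemma flip_smul (n : ℕ) (x : SS.X) :
    ((SS.qk (mkH _ (FS.single n (eb n))) • x : SS.X) : EE) = x + Pi.single n (eb n) := by
  rw [SS.mk_smul]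
  exact SS.act_eq _ x (g := mkH _ (FS.single n (eb n))) (by rw [sub_self]; exact SS.D.zero_mem)
    (X_flip x.2 n)

end

end Pool.Agent.MP_9152e2_an
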