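import Pool.Agent.MP_9152e2_an.Levy
import Pool.Agent.MP_9152e2_an.Prod

/-! The type III action. -/

set_option autoImplicit false
set_option linter.style.haveILetI false
set_option linter.unusedSectionVars false

open MeasureTheory Set Filter Topology
open scoped ENNReal

namespace Pool.Agent.MP_9152e2_an

noncomputable section

section Wm

variable {Ω : Type} [Fintype Ω] [MeasurableSpace Ω] [DiscreteMeasurableSpace Ω]

/-- measure given by weights -/
def wm (ω : Ω → ℝ) : Measure Ω := ∑ x, ENNReal.ofReal (ω x) • Measure.dirac x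

lemma wm_lintegral (ω : Ω → ℝ) (f : Ω → ℝ≥0∞) :
    ∫⁻ x, f x ∂wm ω = ∑ x, ENNReal.ofReal (ω x) * f x := by
  simp [wm, lintegral_finsetSum_measure]

lemma wm_singleton (ω : Ω → ℝ) (y : Ω) : wm ω {y} = ENNReal.ofReal (ω y) := by
  rw [wm, Measure.finsetSum_apply, Finset.sum_eq_single y]
  · simp
  · intro x _ hx
    simp [hx]
  · simp

lemma wm_prob (ω : Ω → ℝ) (h0 : ∀ x, 0 ≤ ω x) (h1 : ∑ x, ω x = 1) :
    IsProbabilityMeasure (wm ω) := ⟨by
  rw [wm, Measure.finsetSum_apply]
  simp only [Measure.smul_apply, measure_univ, smul_eq_mul, mul_one]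
  rw [← ENNReal.ofReal_sum_of_nonneg fun x _ => h0 x, h1, ENNReal.ofReal_one]⟩

lemma wm_lintegral_ofReal (ω : Ω → ℝ) (h0 : ∀ x, 0 ≤ ω x) (f : Ω → ℝ) (hf : ∀ x, 0 ≤ f x) :
    ∫⁻ x, ENNReal.ofReal (f x) ∂wm ω = ENNReal.ofReal (∑ x, ω x * f x) := by
  rw [wm_lintegral, ENNReal.ofReal_sum_of_nonneg fun x _ => mul_nonneg (h0 x) (hf x)]
  exact Finset.sum_congr rfl fun x _ => (ENNReal.ofReal_mul (h0 x)).symm

end Wm

lemma sum_F (n : ℕ) (g : F n → ℝ) :
    ∑ x, g x = ∑ l : Lt n → ZMod 2, ∑ t : Hv n → ZMod 2, g (Sum.elim l t) := by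
  rw [← Fintype.sum_prod_type']
  exact ((Equiv.sumArrowEquivProdArrow (Lt n) (Hv n) (ZMod 2)).symm.sum_comp g).symm

lemma Sc_elim (n : ℕ) (l : Lt n → ZMod 2) (t : Hv n → ZMod 2) :
    Sc n (Sum.elim l t) = Sc n (lam n l) := rfl

lemma inv_ss_nonneg (n : ℕ) : (0 : ℝ) ≤ 1 / ss n := by have := ss_pos n; positivity
lemma inv_ss_le (n : ℕ) : (1 : ℝ) / ss n ≤ 1 / 3 :=
  one_div_le_one_div_of_le (by norm_num) (ss_ge' n)

lemma varL (n : ℕ) :
    ∑ l : Lt n → ZMod 2, pw (fun _ => 1 / ss n) l * Sc n (lam n l) ≤ (1 / 2) ^ n := by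
  unfold Sc
  simp_rw [Finset.mul_sum]
  rw [Finset.sum_comm]
  have key : ∀ p : P n, ∑ l : Lt n → ZMod 2, pw (fun _ => 1 / ss n) l *
      (ww n * (ones n (lam n l) p - mm n * (1 / 2 - 1 / ss n))) ^ 2 ≤ mm n * ww n ^ 2 / 4 := by
    intro p
    have := var_le (β := fun _ : Lt n => (1 : ℝ) / ss n) (fun i => if i.1 = p then ww n else 0)
    refine le_trans (le_of_eq ?_) (this.trans (le_of_eq ?_))
    · refine Finset.sum_congr rfl fun l _ => ?_
      congr 2
      rw [Fintype.sum_prod_type, Finset.sum_eq_single p]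
      · simp [ones, lam, ← Finset.mul_sum]
        left; ring
      · intro q _ hq
        simp [hq]
      · simp
    · rw [Fintype.sum_prod_type, Finset.sum_eq_single p]
      · simp; ring
      · intro q _ hq
        simp [hq]
      · simp
  refine (Finset.sum_le_sum fun p _ => key p).trans ?_
  rw [Finset.sum_const, Finset.card_univ, card_P, nsmul_eq_mul]
  refine le_trans ?_ (pp_div_ss n)
  have hs := ss_pos n
  have e : (mm n : ℝ) * ww n ^ 2 = 1 / ss n := by
    rw [sq, ← mul_assoc, mul_comm (mm n : ℝ), ww_mm, ww]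
    field_simp
  rw [e, div_eq_mul_one_div (pp n : ℝ)]
  have := inv_ss_nonneg n
  have h4 : (0 : ℝ) ≤ pp n := Nat.cast_nonneg _
  nlinarith [mul_nonneg h4 this]

lemma ae_E0 (μ : ∀ n, Measure (F n)) [∀ n, IsProbabilityMeasure (μ n)]
    (h : ∀ n, ∫⁻ y, ENNReal.ofReal (Sc n y) ∂μ n ≤ ENNReal.ofReal ((1 / 2) ^ n)) :
    ∀ᵐ x ∂Measure.infinitePi μ, x ∈ E0 := by
  have hm : ∀ n, Measurable fun x : EE => ENNReal.ofReal (Sc n (x n)) := fun n =>
    (Measurable.of_discrete (f := fun y => ENNReal.ofReal (Sc n y))).comp (measurable_pi_apply n)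
  have h1 : ∫⁻ x, ∑' n, ENNReal.ofReal (Sc n (x n)) ∂Measure.infinitePi μ ≠ ∞ := by
    rw [lintegral_tsum fun n => (hm n).aemeasurable]
    refine ne_top_of_le_ne_top (b := ∑' n, ENNReal.ofReal ((1 / 2) ^ n)) ?_
      (ENNReal.tsum_le_tsum fun n => ?_)
    · exact summable_geometric_two.tsum_ofReal_ne_top
    · refine le_trans (le_of_eq ?_) (h n)
      exact (measurePreserving_eval_infinitePi μ n).lintegral_comp
        (Measurable.of_discrete (f := fun y => ENNReal.ofReal (Sc n y)))
  filter_upwards [ae_lt_top (Measurable.tsum hm) h1] with x hx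
  have h2 := ENNReal.tendsto_atTop_zero_of_tsum_ne_top hx.ne
  have h3 := (ENNReal.tendsto_toReal ENNReal.zero_ne_top).comp h2
  refine h3.congr fun n => ?_
  simp [Sc_nonneg]

lemma ergodic_of_prod (μ : ∀ n, Measure (F n)) [∀ n, IsProbabilityMeasure (μ n)]
    (T : Set EE) (hT : MeasurableSet T) (h : ∀ g y, y + jH g ∈ T ↔ y ∈ T) :
    Measure.infinitePi μ T = 0 ∨ Measure.infinitePi μ Tᶜ = 0 := by
  rcases zero_one μ T hT (fun γ hγ x => h (mkH γ hγ) x) with h0 | h1
  · exact Or.inl h0
  · exact Or.inr ((prob_compl_eq_zero_iff hT).2 h1)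

/-- biases -/
def bb (n : ℕ) : C n → ℝ := Sum.elim (fun _ => 1 / ss n) (fun _ => 1 / 6)

lemma bb_nonneg (n : ℕ) (i : C n) : 0 ≤ bb n i := by
  rcases i with i | i
  · exact inv_ss_nonneg n
  · simp [bb]
lemma bb_le (n : ℕ) (i : C n) : bb n i ≤ 1 / 3 := by
  rcases i with i | i
  · exact inv_ss_le n
  · simp [bb]; norm_num
lemma bb_sq_le (n : ℕ) (i : C n) : bb n i ^ 2 ≤ Wt n i := by
  rcases i with i | i
  · exact le_rfl
  · simp [bb, Wt]; norm_num

/-- the weights at level n -/
def om (n : ℕ) (x : F n) : ℝ := pw (bb n) x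

lemma om_pos (n : ℕ) (x : F n) : 0 < om n x := pw_pos (bb_nonneg n) (bb_le n) x

/-- the biased product measure at level n -/
def P3 (n : ℕ) : Measure (F n) := wm (om n)

instance (n : ℕ) : IsProbabilityMeasure (P3 n) :=
  wm_prob _ (fun x => (om_pos n x).le) (sum_pw (bb n))

lemma P3_singleton (n : ℕ) (y : F n) : P3 n {y} = ENNReal.ofReal (om n y) := wm_singleton _ _
lemma P3_real (n : ℕ) (y : F n) : (P3 n).real {y} = om n y := by
  rw [Measure.real, P3_singleton, ENNReal.toReal_ofReal (om_pos n y).le]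

lemma P3_E0 : ∀ᵐ x ∂Measure.infinitePi P3, x ∈ E0 := by
  refine ae_E0 P3 fun n => ?_
  rw [P3, wm_lintegral_ofReal _ (fun x => (om_pos n x).le) _ (Sc_nonneg n)]
  refine ENNReal.ofReal_le_ofReal (le_trans (le_of_eq ?_) (varL n))
  rw [sum_F]
  refine Finset.sum_congr rfl fun l _ => ?_
  have e : ∀ t : Hv n → ZMod 2, om n (Sum.elim l t) =
      pw (fun _ => 1 / ss n) l * pw (fun _ => 1 / 6) t := fun t => by
    unfold om pw
    rw [Fintype.prod_sum_type]
    rfl
  simp_rw [e, Sc_elim, mul_right_comm _ (pw (fun _ => (1 : ℝ) / 6) _), ← Finset.mul_sum, sum_pw,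
    mul_one]

lemma om_split (n : ℕ) (y : F n) : ∃ r : ℝ, 0 < r ∧ r ≤ 1 ∧
    om n y = bw (1 / 6) (y (Sum.inr none)) * r ∧
    om n (y - eb n) = bw (1 / 6) (y (Sum.inr none) + 1) * r := by
  refine ⟨∏ i ∈ Finset.univ.erase (Sum.inr none), bw (bb n i) (y i),
    Finset.prod_pos fun i _ => bw_pos (bb_nonneg n i) (bb_le n i) _,
    Finset.prod_le_one (fun i _ => (bw_pos (bb_nonneg n i) (bb_le n i) _).le)
      fun i _ => bw_le_one (bb_nonneg n i) (bb_le n i) _, ?_, ?_⟩
  · exact (Finset.mul_prod_erase _ (fun i => bw (bb n i) (y i)) (Finset.mem_univ _)).symm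
  · rw [F_sub_eq, om, pw, ← Finset.mul_prod_erase _ (fun i => bw (bb n i) ((y + eb n) i))
      (Finset.mem_univ (Sum.inr none)), F_add, eb_none]
    congr 1
    refine Finset.prod_congr rfl fun i hi => ?_
    have : eb n i = 0 := Pi.single_eq_of_ne (Finset.ne_of_mem_erase hi) _
    rw [F_add, this, add_zero]

lemma P3_quasi (h : HH) (T : Set EE) (hT : MeasurableSet T) (h0 : Measure.infinitePi P3 T = 0) :
    Measure.infinitePi P3 ((· + jH h) ⁻¹' T) = 0 := by
  have hs : Summable fun n => qq n (jH h n) := by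
    refine Summable.of_nonneg_of_le (fun n => qq_nonneg _ _) (fun n => ?_)
      ((HH_summable h).mul_left ‖h‖)
    rw [qq_eq_sq, sq]
    exact mul_le_mul_of_nonneg_right (lp.norm_apply_le_norm one_ne_zero h n) (norm_nonneg _)
  refine quasi_invariant P3 (jH h) (Real.exp (29 * ∑' n, qq n (jH h n)))
    (fun n y => by rw [P3_real]; exact om_pos n y) (fun I => ?_) T hT h0
  calc ∏ n ∈ I, ∑ y, (P3 n).real {y - jH h n} ^ 2 / (P3 n).real {y}
      ≤ ∏ n ∈ I, Real.exp (29 * qq n (jH h n)) := by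
        refine Finset.prod_le_prod (fun n _ => Finset.sum_nonneg fun y _ => by positivity)
          fun n _ => ?_
        simp_rw [P3_real, F_sub_eq]
        refine (chi_le (bb_nonneg n) (bb_le n) (jH h n)).trans (Real.exp_le_exp.2 ?_)
        refine mul_le_mul_of_nonneg_left (Finset.sum_le_sum fun i _ => ?_) (by norm_num)
        exact mul_le_mul_of_nonneg_right (bb_sq_le n i) (ind_nonneg _)
    _ = Real.exp (29 * ∑ n ∈ I, qq n (jH h n)) := by rw [Finset.mul_sum, Real.exp_sum]
    _ ≤ _ := Real.exp_le_exp.2 (mul_le_mul_of_nonneg_left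
        (hs.sum_le_tsum I fun n _ => qq_nonneg _ _) (by norm_num))

lemma P3_noAtoms : NullSingletonClass (Measure.infinitePi P3) := by
  refine noAtoms_infinitePi P3 (ENNReal.ofReal (2 / 3))
    (by rw [ENNReal.ofReal_lt_one]; norm_num) fun n y => ?_
  rw [P3_singleton]
  refine ENNReal.ofReal_le_ofReal ?_
  obtain ⟨r, hr0, hr1, e, -⟩ := om_split n y
  rw [e]
  rcases zmod2_cases (y (Sum.inr none)) with h | h <;> rw [h] <;> simp <;> linarith

lemma res_singleton (ν : Measure EE) [NullSingletonClass ν] (x : SS.X) : SS.res ν {x} = 0 := by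
  rw [SS.res_apply, image_singleton, measure_singleton]

theorem typeIII :
    ∃ (G : Type) (_ : Group G) (_ : TopologicalSpace G) (_ : IsTopologicalGroup G)
      (_ : PolishSpace G) (_ : MeasurableSpace G) (_ : BorelSpace G), IsLevyGroup G ∧
      ∃ (X : Type) (_ : MeasurableSpace X) (_ : StandardBorelSpace X) (_ : MulAction G X)
        (μ : Measure X), IsErgodicSpatial G X μ ∧
        ¬ ∃ ν : Measure X, SigmaFinite ν ∧ ν ≪ μ ∧ μ ≪ ν ∧
          ∀ g : G, ν.map (fun x => g • x) = ν := by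
  haveI := P3_noAtoms
  refine ⟨SS.Grp, inferInstance, inferInstance, inferInstance, inferInstance, inferInstance,
    inferInstance, isLevy, SS.X, inferInstance, SS.hX.standardBorel, inferInstance,
    SS.res (Measure.infinitePi P3), ⟨SS.measurable_smul₂, SS.sigmaFinite_res _,
      res_singleton _, SS.res_quasi _ P3_quasi, SS.res_ergodic _ (ergodic_of_prod P3)⟩, ?_⟩
  rintro ⟨ν, hσ, h1, h2, hinv⟩
  haveI : SigmaFinite (ν.map Subtype.val) := SS.emb.sigmaFinite_map
  have hz : ν.map Subtype.val = 0 := by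
    refine no_invariant_measure P3 eb (fun n => {y | y (Sum.inr none) = 1})
      (fun n => F_add_self _) (fun n y => ?_) (fun n y hy => ?_) (fun n y => ?_) _ ?_ ?_
    · simp only [mem_ofPred_eq, F_add, eb_none]
      rcases zmod2_cases (y (Sum.inr none)) with h | h <;> rw [h] <;> decide
    · obtain ⟨r, hr0, hr1, e, e'⟩ := om_split n y
      rw [P3_singleton, P3_singleton, e, e', hy, ← ENNReal.ofReal_ofNat 2,
        ← ENNReal.ofReal_mul (by norm_num), one_add_one_zmod2, bw_zero, bw_one]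
      congr 1; ring
    · obtain ⟨r, hr0, hr1, e, e'⟩ := om_split n y
      rw [P3_singleton, P3_singleton, e, e', ← ENNReal.ofReal_ofNat 2,
        ← ENNReal.ofReal_mul (by norm_num)]
      refine ENNReal.ofReal_le_ofReal ?_
      rcases zmod2_cases (y (Sum.inr none)) with h | h <;> rw [h] <;>
        simp only [zero_add, one_add_one_zmod2, bw_zero, bw_one] <;> linarith
    · refine (h1.map measurable_subtype_coe).trans ?_
      rw [SS.map_res]
      exact Measure.restrict_le_self.absolutelyContinuous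
    · intro n T hT
      set g := SS.qk (mkH _ (FS.single n (eb n))) with hg
      have hgm : Measurable fun x : SS.X => g • x := by
        have : (fun x : SS.X => g • x) = SS.act _ := funext (SS.mk_smul _)
        rw [this]
        exact SS.measurable_act _
      rw [Measure.map_apply measurable_subtype_coe (measurable_add_const _ hT),
        Measure.map_apply measurable_subtype_coe hT]
      conv_rhs => rw [← hinv g, Measure.map_apply hgm (measurable_subtype_coe hT)]
      congr 1
      ext x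
      simp only [mem_preimage]
      rw [hg, flip_smul]
  have hν : ν univ = 0 := by
    have := congrArg (fun ρ : Measure EE => ρ univ) hz
    simpa [Measure.map_apply measurable_subtype_coe MeasurableSet.univ] using this
  have hX := h2 hν
  rw [SS.res_apply, image_univ, Subtype.range_coe] at hX
  refine SS.pos_of_quasi _ P3_quasi E0 (fun y hy => E0_ex hy) ?_ hX
  intro h0
  have h3 : Measure.infinitePi P3 E0ᶜ = 0 := P3_E0
  have := measure_union_null h0 h3
  simp at this

end

end Pool.Agent.MP_9152e2_an
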